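import Mathlib

/-!
# MP_c749e3_al: definitions

Word length, systole, uniform systole, lattices, systolic growth `σ_G` and uniform systolic growth
`σ^u_G`, and the comparison `f ≼ g`, exactly as in the problem.
-/

open MeasureTheory Pointwise Set
open scoped ENNReal

namespace Pool.Agent.Lib.MP_c749e3_al

section Length

variable {G : Type*} [Group G]

/-- `S` generates `G`: every element of `G` is a product of finitely many elements of `S`
(for symmetric `S` this is generation as a group; for such `S` word length is finite). -/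
def Generates (S : Set G) : Prop := ∀ g : G, ∃ n : ℕ, g ∈ S ^ n

/-- The word length `|g| = min {n : g ∈ S ^ n}`, where `S ^ n` is the set of products of `n`
elements of `S`. -/
noncomputable def wordLength (S : Set G) (g : G) : ℕ := sInf {n : ℕ | g ∈ S ^ n}

/-- The systole `sys X = inf {|x| : x ∈ X \ {1}}` (equal to `∞` if `X \ {1}` is empty). -/
noncomputable def sys (S X : Set G) : ℝ≥0∞ := ⨅ x ∈ X \ {1}, (wordLength S x : ℝ≥0∞)

/-- The `G`-uniform systole `sys^u X = inf_{h ∈ G} sys (h X h⁻¹)`. -/
noncomputable def usys (S X : Set G) : ℝ≥0∞ := ⨅ h : G, sys S ((fun x => h * x * h⁻¹) '' X)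

end Length

section Growth

variable {G : Type*} [Group G] [TopologicalSpace G]

/-- A lattice: a discrete cocompact subgroup. -/
def IsLattice (Λ : Subgroup G) : Prop := DiscreteTopology Λ ∧ CompactSpace (G ⧸ Λ)

variable [MeasurableSpace G]

/-- `σ_G(r)`: the infimum of the covolumes of the lattices of `G` of systole at least `r`. -/
noncomputable def sigma (S : Set G) (μ : Measure G) (r : ℝ) : ℝ≥0∞ :=
  ⨅ (Λ : Subgroup G) (_ : IsLattice Λ) (_ : ENNReal.ofReal r ≤ sys S (Λ : Set G)),
    covolume Λ G μ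

/-- `σ^u_G(r)`: the infimum of the covolumes of the lattices of `G` of `G`-uniform systole at
least `r`. -/
noncomputable def sigmaU (S : Set G) (μ : Measure G) (r : ℝ) : ℝ≥0∞ :=
  ⨅ (Λ : Subgroup G) (_ : IsLattice Λ) (_ : ENNReal.ofReal r ≤ usys S (Λ : Set G)),
    covolume Λ G μ

/-- `f ≼ g`: there are `C, C', C'' > 0` with `f r ≤ C * g (C' * r) + C''` for all `r > 0`. -/
def Precedes (f g : ℝ → ℝ≥0∞) : Prop :=
  ∃ C C' C'' : ℝ, 0 < C ∧ 0 < C' ∧ 0 < C'' ∧
    ∀ r : ℝ, 0 < r → f r ≤ ENNReal.ofReal C * g (C' * r) + ENNReal.ofReal C''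

end Growth

end Pool.Agent.Lib.MP_c749e3_al
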