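import Pool.Agent.Lib.MP_c749e3_al.Defs

/-!
# Every discrete subgroup has a Borel fundamental domain
-/

open MeasureTheory Pointwise Set Topology
open scoped ENNReal NNReal

noncomputable section

namespace Pool.Agent.Lib.MP_c749e3_al

variable {G : Type*} [Group G] [TopologicalSpace G] [IsTopologicalGroup G]
  [SecondCountableTopology G] [MeasurableSpace G] [BorelSpace G]

theorem exists_fundDom (Λ : Subgroup G) [DiscreteTopology Λ] :
    ∃ F : Set G, MeasurableSet F ∧ ∀ g : G, ∃! l : Λ, l • g ∈ F := by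
  -- a neighbourhood separating `Λ`
  obtain ⟨W, hW, hW1⟩ : ∃ W ∈ 𝓝 (1 : G), ∀ l ∈ Λ, l ∈ W → l = 1 := by
    have h : IsOpen ({1} : Set Λ) := isOpen_discrete _
    obtain ⟨U, hU, hU1⟩ := isOpen_induced_iff.1 h
    refine ⟨U, hU.mem_nhds ?_, fun l hl hlU => ?_⟩
    · have : (1 : Λ) ∈ (Subtype.val ⁻¹' U : Set Λ) := by rw [hU1]; rfl
      exact this
    · have : (⟨l, hl⟩ : Λ) ∈ (Subtype.val ⁻¹' U : Set Λ) := hlU
      rw [hU1] at this
      exact congrArg Subtype.val this
  obtain ⟨U, hUo, hU1, hUW⟩ : ∃ U : Set G, IsOpen U ∧ (1 : G) ∈ U ∧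
      ∀ a ∈ U, ∀ b ∈ U, a * b⁻¹ ∈ W := by
    have hc : ContinuousAt (fun r : G × G => r.1 * r.2⁻¹) (1, 1) := by fun_prop
    have hW' : W ∈ 𝓝 ((fun r : G × G => r.1 * r.2⁻¹) (1, 1)) := by simpa using hW
    have := hc hW'
    rw [nhds_prod_eq] at this
    obtain ⟨A, hA, B, hB, hAB⟩ := Filter.mem_prod_iff.1 this
    obtain ⟨U, hUsub, hUo, hU1⟩ := mem_nhds_iff.1 (Filter.inter_mem hA hB)
    exact ⟨U, hUo, hU1, fun a ha b hb => hAB (mk_mem_prod (hUsub ha).1 (hUsub hb).2)⟩
  obtain ⟨s, hs, hcov⟩ := TopologicalSpace.countable_cover_nhds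
    (f := fun x : G => (fun u => u * x) '' U) (by
      intro x
      apply IsOpen.mem_nhds
      · exact isOpenMap_mul_right x _ hUo
      · exact ⟨1, hU1, by simp⟩)
  have hsne : s.Nonempty := by
    by_contra hne
    rw [not_nonempty_iff_eq_empty] at hne
    subst hne
    simp only [mem_empty_iff_false, iUnion_of_empty, iUnion_empty] at hcov
    exact (eq_univ_iff_forall.1 hcov 1).elim
  obtain ⟨e, he⟩ := hs.exists_eq_range hsne
  let V : ℕ → Set G := fun i => (fun u => u * e i) '' U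
  have hVo : ∀ i, IsOpen (V i) := fun i => isOpenMap_mul_right (e i) _ hUo
  have hVcov : ∀ g, ∃ i, g ∈ V i := by
    intro g
    have : g ∈ ⋃ x ∈ s, (fun u => u * x) '' U := by rw [hcov]; trivial
    rw [he] at this
    simpa [V] using this
  have hVinj : ∀ i, ∀ l l' : Λ, ∀ g : G, l • g ∈ V i → l' • g ∈ V i → l = l' := by
    rintro i l l' g ⟨a, ha, hag⟩ ⟨b, hb, hbg⟩
    have h1 : (l : G) * g = a * e i := by simpa [Subgroup.smul_def] using hag.symm
    have h2 : (l' : G) * g = b * e i := by simpa [Subgroup.smul_def] using hbg.symm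
    have h3 : (l : G) * (l' : G)⁻¹ = a * b⁻¹ := by
      have e1 : (l : G) = a * e i * g⁻¹ := by rw [← h1]; group
      have e2 : (l' : G) = b * e i * g⁻¹ := by rw [← h2]; group
      rw [e1, e2]
      group
    have h4 : (l : G) * (l' : G)⁻¹ = 1 := by
      apply hW1 _ (Λ.mul_mem l.2 (Λ.inv_mem l'.2))
      rw [h3]
      exact hUW a ha b hb
    exact Subtype.ext (mul_inv_eq_one.1 h4)
  let ΛV : ℕ → Set G := fun i => ⋃ l : Λ, {g | l • g ∈ V i}
  have hΛVo : ∀ i, IsOpen (ΛV i) := by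
    intro i
    apply isOpen_iUnion
    intro l
    have hc : Continuous (fun g : G => l • g) := by
      simpa [Subgroup.smul_def] using continuous_const_mul (l : G)
    exact (hVo i).preimage hc
  have hΛVinv : ∀ i (l : Λ) (g : G), l • g ∈ ΛV i → g ∈ ΛV i := by
    intro i l g hg
    obtain ⟨l', hl'⟩ := mem_iUnion.1 hg
    exact mem_iUnion.2 ⟨l' * l, by simpa [mul_smul] using hl'⟩
  refine ⟨⋃ i, V i \ ⋃ j < i, ΛV j, ?_, ?_⟩
  · refine MeasurableSet.iUnion fun i => (hVo i).measurableSet.diff ?_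
    exact MeasurableSet.iUnion fun j => MeasurableSet.iUnion fun _ => (hΛVo j).measurableSet
  · intro g
    classical
    have hex : ∃ i, g ∈ ΛV i := by
      obtain ⟨i, hi⟩ := hVcov g
      exact ⟨i, mem_iUnion.2 ⟨1, by simpa using hi⟩⟩
    have hmin : ∀ j < Nat.find hex, g ∉ ΛV j := fun j hj => Nat.find_min hex hj
    obtain ⟨l, hl⟩ := mem_iUnion.1 (Nat.find_spec hex)
    refine ⟨l, ?_, ?_⟩
    · refine mem_iUnion.2 ⟨Nat.find hex, hl, ?_⟩
      intro hmem
      obtain ⟨j, hj, hg⟩ := mem_iUnion₂.1 hmem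
      exact hmin j hj (hΛVinv j l g hg)
    · intro l' hl'
      obtain ⟨i, hi, hi'⟩ := mem_iUnion.1 hl'
      have hgi : g ∈ ΛV i := mem_iUnion.2 ⟨l', hi⟩
      have hge : ¬ i < Nat.find hex := fun hlt => hmin i hlt hgi
      have hle : ¬ Nat.find hex < i := by
        intro hlt
        apply hi'
        refine mem_iUnion₂.2 ⟨Nat.find hex, hlt, ?_⟩
        have := hΛVinv (Nat.find hex) (l'⁻¹) (l' • g) (by simpa using Nat.find_spec hex)
        exact this
      have heq : i = Nat.find hex := by omega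
      rw [heq] at hi
      exact hVinj _ l' l g hi hl

/-- a discrete subgroup has a fundamental domain -/
theorem exists_isFundamentalDomain (Λ : Subgroup G) [DiscreteTopology Λ] (μ : Measure G) :
    ∃ F : Set G, IsFundamentalDomain Λ F μ := by
  obtain ⟨F, hF, hF'⟩ := exists_fundDom Λ
  exact ⟨F, IsFundamentalDomain.mk' hF.nullMeasurableSet hF'⟩

end Pool.Agent.Lib.MP_c749e3_al
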