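import Pool.Agent.Lib.MP_c749e3_al.HaarG8

/-!
# `G8` is compactly generated
-/

open MeasureTheory Pointwise Set Topology
open scoped ENNReal NNReal

noncomputable section

namespace Pool.Agent.Lib.MP_c749e3_al

namespace G8

/-- the unit box -/
def S0 : Set G8 := {g | |g.x| ≤ 1 ∧ |g.t| ≤ 1 ∧ |g.y| ≤ 1 ∧ |g.z| ≤ 1 ∧ |g.p| ≤ 1 ∧ |g.q| ≤ 1 ∧
  |g.w| ≤ 1 ∧ |g.m| ≤ 1}

lemma isCompact_S0 : IsCompact S0 := by
  have h : S0 = (Set.pi univ fun _ : Fin 8 => Icc (-1 : ℝ) 1 : Set (Fin 8 → ℝ)) := by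
    ext v
    constructor
    · rintro ⟨h1, h2, h3, h4, h5, h6, h7, h8⟩ i -
      fin_cases i
      exacts [abs_le.1 h1, abs_le.1 h2, abs_le.1 h3, abs_le.1 h4, abs_le.1 h5, abs_le.1 h6,
        abs_le.1 h7, abs_le.1 h8]
    · intro hv
      exact ⟨abs_le.2 (hv 0 trivial), abs_le.2 (hv 1 trivial), abs_le.2 (hv 2 trivial),
        abs_le.2 (hv 3 trivial), abs_le.2 (hv 4 trivial), abs_le.2 (hv 5 trivial),
        abs_le.2 (hv 6 trivial), abs_le.2 (hv 7 trivial)⟩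
  rw [h]
  exact isCompact_univ_pi (X := fun _ : Fin 8 => ℝ) fun i => isCompact_Icc

lemma pow_abelian (y z q w m : ℝ) (n : ℕ) :
    (mk 0 0 y z 0 q w m) ^ n = mk 0 0 (n * y) (n * z) 0 (n * q) (n * w) (n * m) := by
  induction n with
  | zero => simp; rfl
  | succ n ih =>
    rw [pow_succ, ih]
    ext <;> simp <;> ring

lemma pow_p (p : ℝ) (n : ℕ) :
    (mk 0 0 0 0 p 0 0 0) ^ n = mk 0 0 0 0 (n * p) 0 0 0 := by
  induction n with
  | zero => simp; rfl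
  | succ n ih =>
    rw [pow_succ, ih]
    ext <;> simp <;> ring

lemma pow_xt (x t : ℝ) (n : ℕ) :
    (mk x t 0 0 0 0 0 0) ^ n = mk (n * x) (n * t) 0 0 0 0 0 0 := by
  induction n with
  | zero => simp; rfl
  | succ n ih =>
    rw [pow_succ, ih]
    ext <;> simp <;> ring

lemma generates_S0 : Generates S0 := by
  intro g
  obtain ⟨n, hn⟩ := exists_nat_gt (1 + |g.x| + |g.t| + |g.y| + |g.z| + |g.p| + |g.q| + |g.w| +
    |g.m + g.q * g.p / 2|)
  have p1 := abs_nonneg g.x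
  have p2 := abs_nonneg g.t
  have p3 := abs_nonneg g.y
  have p4 := abs_nonneg g.z
  have p5 := abs_nonneg g.p
  have p6 := abs_nonneg g.q
  have p7 := abs_nonneg g.w
  have p8 := abs_nonneg (g.m + g.q * g.p / 2)
  have hn0 : (0 : ℝ) < n := by linarith
  have hle : ∀ a : ℝ, |a| ≤ n → |a / n| ≤ 1 := by
    intro a ha
    rw [abs_div, abs_of_pos hn0, div_le_one hn0]
    exact ha
  have h0 : |(0 : ℝ)| ≤ 1 := by simp
  have e : g = (mk 0 0 (g.y / n) (g.z / n) 0 (g.q / n) (g.w / n) ((g.m + g.q * g.p / 2) / n)) ^ n *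
      (mk 0 0 0 0 (g.p / n) 0 0 0) ^ n * (mk (g.x / n) (g.t / n) 0 0 0 0 0 0) ^ n := by
    rw [pow_abelian, pow_p, pow_xt]
    ext <;> simp <;> field_simp
    ring
  refine ⟨n + n + n, ?_⟩
  rw [e, pow_add, pow_add]
  refine mul_mem_mul (mul_mem_mul (Set.pow_mem_pow ?_) (Set.pow_mem_pow ?_))
    (Set.pow_mem_pow ?_)
  · exact ⟨h0, h0, hle _ (by linarith), hle _ (by linarith), h0, hle _ (by linarith),
      hle _ (by linarith), hle _ (by linarith)⟩
  · exact ⟨h0, h0, h0, h0, hle _ (by linarith), h0, h0, h0⟩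
  · exact ⟨hle _ (by linarith), hle _ (by linarith), h0, h0, h0, h0, h0, h0⟩

end G8

end Pool.Agent.Lib.MP_c749e3_al
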