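import Pool.Agent.Lib.MP_c749e3_al.Defs

/-!
# The 8-dimensional group `G8`

Coordinates `(x, t, y, z, p, q, w, m)`; left multiplication is affine with unipotent linear part.
Lie algebra: `[x,y]=z, [x,z]=m, [t,p]=q, [t,q]=w, [t,w]=m, [p,q]=m`.
-/

open MeasureTheory Pointwise Set
open scoped ENNReal Manifold ContDiff

noncomputable section

namespace Pool.Agent.Lib.MP_c749e3_al

/-- The underlying space of the group. -/
def G8 : Type := Fin 8 → ℝ

namespace G8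

/-- build an element from its coordinates -/
def mk (x t y z p q w m : ℝ) : G8 := ![x, t, y, z, p, q, w, m]

def x (g : G8) : ℝ := g 0
def t (g : G8) : ℝ := g 1
def y (g : G8) : ℝ := g 2
def z (g : G8) : ℝ := g 3
def p (g : G8) : ℝ := g 4
def q (g : G8) : ℝ := g 5
def w (g : G8) : ℝ := g 6
def m (g : G8) : ℝ := g 7

@[simp] lemma x_mk (a b c d e f g h : ℝ) : (mk a b c d e f g h).x = a := rfl
@[simp] lemma t_mk (a b c d e f g h : ℝ) : (mk a b c d e f g h).t = b := rfl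
@[simp] lemma y_mk (a b c d e f g h : ℝ) : (mk a b c d e f g h).y = c := rfl
@[simp] lemma z_mk (a b c d e f g h : ℝ) : (mk a b c d e f g h).z = d := rfl
@[simp] lemma p_mk (a b c d e f g h : ℝ) : (mk a b c d e f g h).p = e := rfl
@[simp] lemma q_mk (a b c d e f g h : ℝ) : (mk a b c d e f g h).q = f := rfl
@[simp] lemma w_mk (a b c d e f g h : ℝ) : (mk a b c d e f g h).w = g := rfl
@[simp] lemma m_mk (a b c d e f g h : ℝ) : (mk a b c d e f g h).m = h := rfl

@[ext] lemma ext {g h : G8} (hx : g.x = h.x) (ht : g.t = h.t) (hy : g.y = h.y) (hz : g.z = h.z)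
    (hp : g.p = h.p) (hq : g.q = h.q) (hw : g.w = h.w) (hm : g.m = h.m) : g = h := by
  funext i
  fin_cases i
  · exact hx
  · exact ht
  · exact hy
  · exact hz
  · exact hp
  · exact hq
  · exact hw
  · exact hm

@[simp] lemma mk_eta (g : G8) : mk g.x g.t g.y g.z g.p g.q g.w g.m = g := by
  ext <;> rfl

/-- the product -/
def mul (g h : G8) : G8 :=
  mk (g.x + h.x) (g.t + h.t) (g.y + h.y) (g.z + h.z + g.x * h.y) (g.p + h.p)
    (g.q + h.q + g.t * h.p) (g.w + h.w + g.t * h.q + g.t ^ 2 / 2 * h.p)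
    (g.m + h.m + g.x * h.z + g.x ^ 2 / 2 * h.y + g.t * h.w + g.t ^ 2 / 2 * h.q
      + g.t ^ 3 / 6 * h.p + (g.p * (h.q + g.t * h.p) - g.q * h.p) / 2)

/-- the inverse -/
def inv (g : G8) : G8 :=
  mk (-g.x) (-g.t) (-g.y) (-g.z + g.x * g.y) (-g.p) (-g.q + g.t * g.p)
    (-g.w + g.t * g.q - g.t ^ 2 / 2 * g.p)
    (-g.m + g.x * g.z - g.x ^ 2 / 2 * g.y + g.t * g.w - g.t ^ 2 / 2 * g.q + g.t ^ 3 / 6 * g.p)

instance : Mul G8 := ⟨mul⟩
instance : One G8 := ⟨mk 0 0 0 0 0 0 0 0⟩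
instance : Inv G8 := ⟨inv⟩

section simp
variable (g h : G8)
@[simp] lemma mul_x : (g * h).x = g.x + h.x := rfl
@[simp] lemma mul_t : (g * h).t = g.t + h.t := rfl
@[simp] lemma mul_y : (g * h).y = g.y + h.y := rfl
@[simp] lemma mul_z : (g * h).z = g.z + h.z + g.x * h.y := rfl
@[simp] lemma mul_p : (g * h).p = g.p + h.p := rfl
@[simp] lemma mul_q : (g * h).q = g.q + h.q + g.t * h.p := rfl
@[simp] lemma mul_w : (g * h).w = g.w + h.w + g.t * h.q + g.t ^ 2 / 2 * h.p := rfl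
@[simp] lemma mul_m : (g * h).m = g.m + h.m + g.x * h.z + g.x ^ 2 / 2 * h.y + g.t * h.w
    + g.t ^ 2 / 2 * h.q + g.t ^ 3 / 6 * h.p + (g.p * (h.q + g.t * h.p) - g.q * h.p) / 2 := rfl
@[simp] lemma one_x : (1 : G8).x = 0 := rfl
@[simp] lemma one_t : (1 : G8).t = 0 := rfl
@[simp] lemma one_y : (1 : G8).y = 0 := rfl
@[simp] lemma one_z : (1 : G8).z = 0 := rfl
@[simp] lemma one_p : (1 : G8).p = 0 := rfl
@[simp] lemma one_q : (1 : G8).q = 0 := rfl
@[simp] lemma one_w : (1 : G8).w = 0 := rfl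
@[simp] lemma one_m : (1 : G8).m = 0 := rfl
@[simp] lemma inv_x : (g⁻¹).x = -g.x := rfl
@[simp] lemma inv_t : (g⁻¹).t = -g.t := rfl
@[simp] lemma inv_y : (g⁻¹).y = -g.y := rfl
@[simp] lemma inv_z : (g⁻¹).z = -g.z + g.x * g.y := rfl
@[simp] lemma inv_p : (g⁻¹).p = -g.p := rfl
@[simp] lemma inv_q : (g⁻¹).q = -g.q + g.t * g.p := rfl
@[simp] lemma inv_w : (g⁻¹).w = -g.w + g.t * g.q - g.t ^ 2 / 2 * g.p := rfl
@[simp] lemma inv_m : (g⁻¹).m = -g.m + g.x * g.z - g.x ^ 2 / 2 * g.y + g.t * g.w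
    - g.t ^ 2 / 2 * g.q + g.t ^ 3 / 6 * g.p := rfl
end simp

instance : Group G8 where
  mul_assoc a b c := by
    ext <;> simp <;> ring
  one_mul a := by
    ext <;> simp
  mul_one a := by
    ext <;> simp
  inv_mul_cancel a := by
    ext <;> simp <;> ring

instance : TopologicalSpace G8 := inferInstanceAs (TopologicalSpace (Fin 8 → ℝ))
instance : T2Space G8 := inferInstanceAs (T2Space (Fin 8 → ℝ))
instance : SecondCountableTopology G8 :=
  inferInstanceAs (SecondCountableTopology (Fin 8 → ℝ))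
instance : LocallyCompactSpace G8 := inferInstanceAs (LocallyCompactSpace (Fin 8 → ℝ))
instance : MeasurableSpace G8 := inferInstanceAs (MeasurableSpace (Fin 8 → ℝ))
instance : BorelSpace G8 := inferInstanceAs (BorelSpace (Fin 8 → ℝ))
instance : ContractibleSpace G8 := inferInstanceAs (ContractibleSpace (Fin 8 → ℝ))
noncomputable instance : ChartedSpace (Fin 8 → ℝ) G8 :=
  inferInstanceAs (ChartedSpace (Fin 8 → ℝ) (Fin 8 → ℝ))

instance : SimplyConnectedSpace G8 := inferInstance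

/-- multiplication as a map between vector spaces -/
def mulFun (r : (Fin 8 → ℝ) × (Fin 8 → ℝ)) : Fin 8 → ℝ := mul r.1 r.2

/-- inversion as a map between vector spaces -/
def invFun (r : Fin 8 → ℝ) : Fin 8 → ℝ := inv r

lemma contDiff_mulFun : ContDiff ℝ ∞ mulFun := by
  rw [contDiff_pi]
  intro i
  fin_cases i <;> simp [mulFun, mul, mk, x, t, y, z, p, q, w, m] <;> fun_prop

lemma contDiff_invFun : ContDiff ℝ ∞ invFun := by
  rw [contDiff_pi]
  intro i
  fin_cases i <;> simp [invFun, inv, mk, x, t, y, z, p, q, w, m] <;> fun_prop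

instance : IsManifold 𝓘(ℝ, Fin 8 → ℝ) ∞ G8 :=
  inferInstanceAs (IsManifold 𝓘(ℝ, Fin 8 → ℝ) ∞ (Fin 8 → ℝ))

instance : LieGroup 𝓘(ℝ, Fin 8 → ℝ) ∞ G8 where
  contMDiff_mul := by
    have h := contDiff_mulFun.contMDiff
    rw [modelWithCornersSelf_prod, ← chartedSpaceSelf_prod] at h
    exact h
  contMDiff_inv := contDiff_invFun.contMDiff

instance : IsTopologicalGroup G8 where
  continuous_mul := contDiff_mulFun.continuous
  continuous_inv := contDiff_invFun.continuous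

@[fun_prop] lemma continuous_x : Continuous x := continuous_apply (A := fun _ : Fin 8 => ℝ) 0
@[fun_prop] lemma continuous_t : Continuous t := continuous_apply (A := fun _ : Fin 8 => ℝ) 1
@[fun_prop] lemma continuous_y : Continuous y := continuous_apply (A := fun _ : Fin 8 => ℝ) 2
@[fun_prop] lemma continuous_z : Continuous z := continuous_apply (A := fun _ : Fin 8 => ℝ) 3
@[fun_prop] lemma continuous_p : Continuous p := continuous_apply (A := fun _ : Fin 8 => ℝ) 4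
@[fun_prop] lemma continuous_q : Continuous q := continuous_apply (A := fun _ : Fin 8 => ℝ) 5
@[fun_prop] lemma continuous_w : Continuous w := continuous_apply (A := fun _ : Fin 8 => ℝ) 6
@[fun_prop] lemma continuous_m : Continuous m := continuous_apply (A := fun _ : Fin 8 => ℝ) 7

lemma continuous_mk {X : Type*} [TopologicalSpace X] {a b c d e f g h : X → ℝ}
    (ha : Continuous a) (hb : Continuous b) (hc : Continuous c) (hd : Continuous d)
    (he : Continuous e) (hf : Continuous f) (hg : Continuous g) (hh : Continuous h) :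
    Continuous (fun s => mk (a s) (b s) (c s) (d s) (e s) (f s) (g s) (h s)) := by
  refine continuous_pi (A := fun _ : Fin 8 => ℝ) (fun i => ?_)
  fin_cases i
  · exact ha
  · exact hb
  · exact hc
  · exact hd
  · exact he
  · exact hf
  · exact hg
  · exact hh

/-- second term of the lower central series -/
def H1 : Subgroup G8 where
  carrier := {g | g.x = 0 ∧ g.t = 0 ∧ g.y = 0 ∧ g.p = 0}
  mul_mem' := by
    rintro a b ⟨h1, h2, h3, h4⟩ ⟨k1, k2, k3, k4⟩
    simp [h1, h2, h3, h4, k1, k2, k3, k4]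
  one_mem' := by simp
  inv_mem' := by
    rintro a ⟨h1, h2, h3, h4⟩
    simp [h1, h2, h3, h4]

/-- third term of the lower central series -/
def H2 : Subgroup G8 where
  carrier := {g | g.x = 0 ∧ g.t = 0 ∧ g.y = 0 ∧ g.p = 0 ∧ g.z = 0 ∧ g.q = 0}
  mul_mem' := by
    rintro a b ⟨h1, h2, h3, h4, h5, h6⟩ ⟨k1, k2, k3, k4, k5, k6⟩
    simp [h1, h2, h3, h4, h5, h6, k1, k2, k3, k4, k5, k6]
  one_mem' := by simp
  inv_mem' := by
    rintro a ⟨h1, h2, h3, h4, h5, h6⟩
    simp [h1, h2, h3, h4, h5, h6]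

/-- fourth term of the lower central series -/
def H3 : Subgroup G8 where
  carrier := {g | g.x = 0 ∧ g.t = 0 ∧ g.y = 0 ∧ g.p = 0 ∧ g.z = 0 ∧ g.q = 0 ∧ g.w = 0}
  mul_mem' := by
    rintro a b ⟨h1, h2, h3, h4, h5, h6, h7⟩ ⟨k1, k2, k3, k4, k5, k6, k7⟩
    simp [h1, h2, h3, h4, h5, h6, h7, k1, k2, k3, k4, k5, k6, k7]
  one_mem' := by simp
  inv_mem' := by
    rintro a ⟨h1, h2, h3, h4, h5, h6, h7⟩
    simp [h1, h2, h3, h4, h5, h6, h7]

lemma mem_H1 {g : G8} : g ∈ H1 ↔ g.x = 0 ∧ g.t = 0 ∧ g.y = 0 ∧ g.p = 0 := Iff.rfl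
lemma mem_H2 {g : G8} : g ∈ H2 ↔ g.x = 0 ∧ g.t = 0 ∧ g.y = 0 ∧ g.p = 0 ∧ g.z = 0 ∧ g.q = 0 :=
  Iff.rfl
lemma mem_H3 {g : G8} : g ∈ H3 ↔
    g.x = 0 ∧ g.t = 0 ∧ g.y = 0 ∧ g.p = 0 ∧ g.z = 0 ∧ g.q = 0 ∧ g.w = 0 := Iff.rfl

theorem isNilpotent : Group.IsNilpotent G8 := by
  rw [Subgroup.nilpotent_iff_finite_descending_central_series]
  refine ⟨4, fun n => match n with
    | 0 => ⊤
    | 1 => H1
    | 2 => H2
    | 3 => H3
    | _ => ⊥, ⟨rfl, ?_⟩, rfl⟩
  rintro a n ha g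
  rw [commutatorElement_def]
  match n with
  | 0 => simp [mem_H1]
  | 1 =>
    obtain ⟨h1, h2, h3, h4⟩ := mem_H1.1 ha
    refine mem_H2.2 ⟨?_, ?_, ?_, ?_, ?_, ?_⟩ <;> simp [h1, h2, h3, h4]
  | 2 =>
    obtain ⟨h1, h2, h3, h4, h5, h6⟩ := mem_H2.1 ha
    refine mem_H3.2 ⟨?_, ?_, ?_, ?_, ?_, ?_, ?_⟩ <;> simp [h1, h2, h3, h4, h5, h6]
    ring
  | 3 =>
    obtain ⟨h1, h2, h3, h4, h5, h6, h7⟩ := mem_H3.1 ha
    simp only [Subgroup.mem_bot]
    ext <;> simp [h1, h2, h3, h4, h5, h6, h7]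
    all_goals ring
  | (n + 4) =>
    simp only [Subgroup.mem_bot] at ha
    subst ha
    simp

end G8

end Pool.Agent.Lib.MP_c749e3_al
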