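import Pool.Agent.Lib.MP_c749e3_al.Group8

/-!
# Lebesgue measure is a Haar measure of `G8`; measures of boxes
-/

open MeasureTheory Pointwise Set
open scoped ENNReal NNReal

noncomputable section

namespace Pool.Agent.Lib.MP_c749e3_al

namespace G8

/-- Lebesgue measure on `G8`. -/
def leb : Measure G8 := (volume : Measure (Fin 8 → ℝ))

/-- the linear part of left multiplication by `g` -/
def linPart (g : G8) : Matrix (Fin 8) (Fin 8) ℝ :=
  !![1, 0, 0, 0, 0, 0, 0, 0;
     0, 1, 0, 0, 0, 0, 0, 0;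
     0, 0, 1, 0, 0, 0, 0, 0;
     0, 0, g.x, 1, 0, 0, 0, 0;
     0, 0, 0, 0, 1, 0, 0, 0;
     0, 0, 0, 0, g.t, 1, 0, 0;
     0, 0, 0, 0, g.t ^ 2 / 2, g.t, 1, 0;
     0, 0, g.x ^ 2 / 2, g.x, g.t ^ 3 / 6 + g.p * g.t / 2 - g.q / 2, g.t ^ 2 / 2 + g.p / 2, g.t, 1]

lemma det_linPart (g : G8) : (linPart g).det = 1 := by
  rw [Matrix.det_of_isLowerTriangular]
  · simp [linPart, Fin.prod_univ_succ]
  · intro i j hij
    fin_cases i <;> fin_cases j <;> first | rfl | (exact absurd hij (by decide))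

/-- forget the group structure -/
def toF (g : G8) : Fin 8 → ℝ := g

@[simp] lemma toF_0 (g : G8) : toF g 0 = g.x := rfl
@[simp] lemma toF_1 (g : G8) : toF g 1 = g.t := rfl
@[simp] lemma toF_2 (g : G8) : toF g 2 = g.y := rfl
@[simp] lemma toF_3 (g : G8) : toF g 3 = g.z := rfl
@[simp] lemma toF_4 (g : G8) : toF g 4 = g.p := rfl
@[simp] lemma toF_5 (g : G8) : toF g 5 = g.q := rfl
@[simp] lemma toF_6 (g : G8) : toF g 6 = g.w := rfl
@[simp] lemma toF_7 (g : G8) : toF g 7 = g.m := rfl

lemma mul_eq_affine (g h : G8) :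
    toF (g * h) = toF g + (linPart g).mulVec (toF h) := by
  funext i
  fin_cases i
  all_goals
    simp [linPart, Matrix.mulVec, dotProduct, Fin.sum_univ_eight]
  all_goals try ring

instance : leb.IsMulLeftInvariant where
  map_mul_left_eq_self g := by
    have h1 : (fun h : G8 => g * h) =
        (fun v : Fin 8 → ℝ => toF g + v) ∘ (Matrix.toLin' (linPart g)) := by
      funext h
      exact mul_eq_affine g h
    have h2 : Measure.map (fun h : G8 => g * h) leb = Measure.map (fun v : Fin 8 → ℝ => toF g + v)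
        (Measure.map (Matrix.toLin' (linPart g)) (volume : Measure (Fin 8 → ℝ))) := by
      rw [h1]
      refine (Measure.map_map ?_ ?_).symm
      · exact measurable_const_add _
      · exact (LinearMap.continuous_of_finiteDimensional (Matrix.toLin' (linPart g))).measurable
    rw [h2, Real.map_matrix_volume_pi_eq_smul_volume_pi (by simp [det_linPart])]
    simp only [det_linPart, inv_one, abs_one, ENNReal.ofReal_one, one_smul]
    exact map_add_left_eq_self (volume : Measure (Fin 8 → ℝ)) (toF g)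

instance : leb.IsHaarMeasure where
  lt_top_of_isCompact := by
    intro K hK
    exact IsCompact.measure_lt_top (μ := (volume : Measure (Fin 8 → ℝ))) hK
  open_pos := by
    intro U hU hne
    exact IsOpen.measure_ne_zero (volume : Measure (Fin 8 → ℝ)) hU hne

/-- the half-open box with given side lengths -/
def box (a b c d e f g h : ℝ) : Set G8 :=
  {v | v.x ∈ Ico 0 a ∧ v.t ∈ Ico 0 b ∧ v.y ∈ Ico 0 c ∧ v.z ∈ Ico 0 d ∧ v.p ∈ Ico 0 e ∧
    v.q ∈ Ico 0 f ∧ v.w ∈ Ico 0 g ∧ v.m ∈ Ico 0 h}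

lemma box_eq (a b c d e f g h : ℝ) :
    box a b c d e f g h = (Set.pi univ fun i : Fin 8 =>
      Ico ((fun _ => 0 : Fin 8 → ℝ) i) ((![a, b, c, d, e, f, g, h] : Fin 8 → ℝ) i) :
        Set (Fin 8 → ℝ)) := by
  ext v
  constructor
  · rintro ⟨h1, h2, h3, h4, h5, h6, h7, h8⟩ i -
    fin_cases i
    exacts [h1, h2, h3, h4, h5, h6, h7, h8]
  · intro hv
    exact ⟨hv 0 trivial, hv 1 trivial, hv 2 trivial, hv 3 trivial, hv 4 trivial, hv 5 trivial,
      hv 6 trivial, hv 7 trivial⟩

lemma measurableSet_box (a b c d e f g h : ℝ) : MeasurableSet (box a b c d e f g h) := by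
  rw [box_eq]
  exact MeasurableSet.univ_pi (fun i => measurableSet_Ico)

lemma leb_box {a b c d e f g h : ℝ} (ha : 0 ≤ a) (hb : 0 ≤ b) (hc : 0 ≤ c) (hd : 0 ≤ d)
    (he : 0 ≤ e) (hf : 0 ≤ f) (hg : 0 ≤ g) :
    leb (box a b c d e f g h) = ENNReal.ofReal (a * b * c * d * e * f * g * h) := by
  rw [box_eq]
  refine (Real.volume_pi_Ico).trans ?_
  simp only [Fin.prod_univ_eight, sub_zero]
  simp only [Matrix.cons_val]
  rw [ENNReal.ofReal_mul (by positivity), ENNReal.ofReal_mul (by positivity),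
    ENNReal.ofReal_mul (by positivity), ENNReal.ofReal_mul (by positivity),
    ENNReal.ofReal_mul (by positivity), ENNReal.ofReal_mul (by positivity),
    ENNReal.ofReal_mul (by positivity)]

/-- every Haar measure is a positive finite multiple of Lebesgue measure -/
lemma exists_eq_smul_leb (μ : Measure G8) [μ.IsHaarMeasure] :
    ∃ c : ℝ≥0, 0 < c ∧ μ = c • leb := by
  refine ⟨μ.haarScalarFactor leb, ?_, Measure.isMulLeftInvariant_eq_smul μ leb⟩
  exact Measure.haarScalarFactor_pos_of_isHaarMeasure μ leb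

end G8

end Pool.Agent.Lib.MP_c749e3_al
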