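import Pool.Agent.Lib.MP_c749e3_al.Defs

/-!
# General facts: word length and compact sets, cocompactness of centralisers
-/

open MeasureTheory Pointwise Set Topology
open scoped ENNReal NNReal

noncomputable section

namespace Pool.Agent.Lib.MP_c749e3_al

section Words

variable {G : Type*} [Group G] {S : Set G}

lemma wordLength_le {n : ℕ} {g : G} (h : g ∈ S ^ n) : wordLength S g ≤ n := Nat.sInf_le h

lemma mem_pow_wordLength (hS : Generates S) (g : G) : g ∈ S ^ (wordLength S g) :=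
  Nat.sInf_mem (hS g)

lemma wordLength_mul_le (hS : Generates S) (g h : G) :
    wordLength S (g * h) ≤ wordLength S g + wordLength S h := by
  apply wordLength_le
  rw [pow_add]
  exact mul_mem_mul (mem_pow_wordLength hS g) (mem_pow_wordLength hS h)

lemma wordLength_one : wordLength S (1 : G) = 0 :=
  Nat.le_zero.1 (wordLength_le (by simp))

lemma wordLength_pow_le (hS : Generates S) (g : G) (n : ℕ) :
    wordLength S (g ^ n) ≤ n * wordLength S g := by
  induction n with
  | zero => simp [wordLength_one]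
  | succ n ih =>
    rw [pow_succ]
    calc wordLength S (g ^ n * g) ≤ wordLength S (g ^ n) + wordLength S g :=
          wordLength_mul_le hS _ _
      _ ≤ n * wordLength S g + wordLength S g := by gcongr
      _ = (n + 1) * wordLength S g := by ring

variable [TopologicalSpace G] [IsTopologicalGroup G]

lemma isCompact_pow (hS : IsCompact S) (n : ℕ) : IsCompact (S ^ n) := by
  induction n with
  | zero => simp
  | succ n ih => rw [pow_succ]; exact ih.mul hS

/-- on a compact set the word length is bounded -/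
lemma exists_wordLength_le [LocallyCompactSpace G] [T2Space G] (hSc : IsCompact S)
    (hS : Generates S) {K : Set G} (hK : IsCompact K) :
    ∃ k : ℕ, ∀ g ∈ K, wordLength S g ≤ k := by
  obtain ⟨n, g0, hg0⟩ : ∃ n : ℕ, (interior (S ^ n)).Nonempty := by
    apply nonempty_interior_of_iUnion_of_closed
    · intro n
      exact (isCompact_pow hSc n).isClosed
    · exact eq_univ_of_forall fun g => mem_iUnion.2 (hS g)
  obtain ⟨T, -, hT⟩ := hK.elim_nhds_subcover
    (fun k => (k * g0⁻¹) • interior (S ^ n)) (by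
      intro k _
      apply IsOpen.mem_nhds
      · exact isOpen_interior.smul _
      · exact ⟨g0, hg0, by simp⟩)
  refine ⟨(T.sup fun k => wordLength S (k * g0⁻¹)) + n, fun g hg => ?_⟩
  obtain ⟨k, hkT, hgk⟩ := mem_iUnion₂.1 (hT hg)
  obtain ⟨u, hu, rfl⟩ := hgk
  have hu' : u ∈ S ^ n := interior_subset hu
  calc wordLength S ((k * g0⁻¹) * u) ≤ wordLength S (k * g0⁻¹) + wordLength S u :=
        wordLength_mul_le hS _ _
    _ ≤ (T.sup fun k => wordLength S (k * g0⁻¹)) + n := by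
        gcongr
        · exact Finset.le_sup (f := fun k => wordLength S (k * g0⁻¹)) hkT
        · exact wordLength_le hu'

/-- along a one-parameter subgroup the word length grows at most linearly -/
lemma exists_wordLength_oneParam [LocallyCompactSpace G] [T2Space G] (hSc : IsCompact S)
    (hS : Generates S) {φ : ℝ → G} (hφ : Continuous φ) (h0 : φ 0 = 1)
    (hadd : ∀ a b, φ (a + b) = φ a * φ b) :
    ∃ A : ℕ, ∀ (l : ℕ) (s : ℝ), |s| ≤ l → wordLength S (φ s) ≤ A * l := by
  obtain ⟨A, hA⟩ := exists_wordLength_le hSc hS ((isCompact_Icc (a := (-1 : ℝ)) (b := 1)).image hφ)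
  refine ⟨A, fun l s hs => ?_⟩
  rcases Nat.eq_zero_or_pos l with rfl | hl
  · simp only [Nat.cast_zero, abs_nonpos_iff] at hs
    subst hs
    simp [h0, wordLength_one]
  · have hpow : ∀ (n : ℕ) (a : ℝ), φ (n * a) = φ a ^ n := by
      intro n a
      induction n with
      | zero => simp [h0]
      | succ n ih =>
        rw [pow_succ, ← ih, ← hadd]
        congr 1
        push_cast
        ring
    have hl' : (0 : ℝ) < l := by exact_mod_cast hl
    have e : s = l * (s / l) := by field_simp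
    rw [e, hpow]
    calc wordLength S (φ (s / l) ^ l) ≤ l * wordLength S (φ (s / l)) := wordLength_pow_le hS _ _
      _ ≤ l * A := by
          gcongr
          apply hA
          refine ⟨s / l, ?_, rfl⟩
          rw [mem_Icc, ← abs_le, abs_div, abs_of_pos hl', div_le_one hl']
          exact hs
      _ = A * l := by ring

end Words

section Cocompact

variable {G : Type*} [Group G] [TopologicalSpace G]

/-- `H = K' (Λ ∩ H)` for a compact set `K'` -/
def Cocpt (Λ H : Subgroup G) : Prop :=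
  ∃ K : Set G, IsCompact K ∧ ∀ h ∈ H, ∃ k ∈ K, ∃ l ∈ Λ, l ∈ H ∧ h = k * l

variable [IsTopologicalGroup G]

lemma cocpt_top [LocallyCompactSpace G] {Λ : Subgroup G} (h : CompactSpace (G ⧸ Λ)) :
    Cocpt Λ ⊤ := by
  obtain ⟨C, hC, h1⟩ := exists_compact_mem_nhds (1 : G)
  have hopen : ∀ a : G, (QuotientGroup.mk '' (a • interior C) : Set (G ⧸ Λ)) ∈
      𝓝 (QuotientGroup.mk a : G ⧸ Λ) := by
    intro a
    apply IsOpen.mem_nhds
    · exact QuotientGroup.isOpenMap_coe _ (isOpen_interior.smul a)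
    · exact ⟨a, ⟨1, mem_interior_iff_mem_nhds.2 h1, by simp⟩, rfl⟩
  have hsurj : ∀ b : G ⧸ Λ, ∃ a : G, (QuotientGroup.mk a : G ⧸ Λ) = b :=
    QuotientGroup.mk_surjective
  choose s hs using hsurj
  obtain ⟨T, -, hT⟩ := (isCompact_univ (X := G ⧸ Λ)).elim_nhds_subcover
    (fun b => QuotientGroup.mk '' (s b • interior C)) (by
      intro b _
      have := hopen (s b)
      rwa [hs b] at this)
  refine ⟨⋃ b ∈ T, s b • C, T.isCompact_biUnion fun b _ => hC.smul (s b), fun g _ => ?_⟩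
  obtain ⟨b, hb, hg⟩ := mem_iUnion₂.1 (hT (mem_univ (QuotientGroup.mk g : G ⧸ Λ)))
  obtain ⟨k, hk, hkg⟩ := hg
  refine ⟨k, ?_, k⁻¹ * g, ?_, Subgroup.mem_top _, by simp⟩
  · refine mem_iUnion₂.2 ⟨b, hb, ?_⟩
    obtain ⟨c, hc, rfl⟩ := hk
    exact ⟨c, interior_subset hc, rfl⟩
  · exact QuotientGroup.eq.1 hkg

/-- in a discrete subgroup, centralisers of its elements are again cocompact -/
lemma Cocpt.centralizer [T2Space G] {Λ H : Subgroup G} [DiscreteTopology Λ] (h : Cocpt Λ H)
    {f : G} (hf : f ∈ Λ) : Cocpt Λ (H ⊓ Subgroup.centralizer {f}) := by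
  obtain ⟨K, hK, hKH⟩ := h
  set D : Set G := (fun k : G => k⁻¹ * f * k) '' K with hD
  have hDc : IsCompact D := hK.image (by fun_prop)
  have hfin : ((Λ : Set G) ∩ D).Finite := by
    have hcl : IsClosed (Λ : Set G) := Subgroup.isClosed_of_discrete
    have : IsCompact ((Λ : Set G) ∩ D) := hDc.inter_left hcl
    refine this.finite ?_
    exact (⟨inferInstance⟩ : IsDiscrete (Λ : Set G)).mono inter_subset_left
  classical
  let r : G → G := fun e =>
    if he : ∃ l ∈ Λ, l ∈ H ∧ l * f * l⁻¹ = e then he.choose else 1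
  refine ⟨K * (r '' ((Λ : Set G) ∩ D)), hK.mul (hfin.image r).isCompact, ?_⟩
  intro g hg
  obtain ⟨hgH, hgf⟩ := hg
  have hgf' : f * g = g * f := by
    exact (Subgroup.mem_centralizer_iff.1 hgf) f rfl
  obtain ⟨k, hk, l, hl, hlH, rfl⟩ := hKH g hgH
  have hconj : l * f * l⁻¹ = k⁻¹ * f * k := by
    have : f * (k * l) = k * l * f := hgf'
    calc l * f * l⁻¹ = k⁻¹ * (k * l * f) * l⁻¹ := by group
      _ = k⁻¹ * (f * (k * l)) * l⁻¹ := by rw [this]
      _ = k⁻¹ * f * k := by group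
  set e : G := l * f * l⁻¹ with he
  have heΛ : e ∈ Λ := Λ.mul_mem (Λ.mul_mem hl hf) (Λ.inv_mem hl)
  have heD : e ∈ D := ⟨k, hk, hconj.symm⟩
  have hex : ∃ l ∈ Λ, l ∈ H ∧ l * f * l⁻¹ = e := ⟨l, hl, hlH, rfl⟩
  have hr : r e = hex.choose := by simp only [r, dif_pos hex]
  obtain ⟨h1, h2, h3⟩ := hex.choose_spec
  rw [← hr] at h1 h2 h3
  refine ⟨k * r e, mul_mem_mul hk ⟨e, ⟨heΛ, heD⟩, rfl⟩, (r e)⁻¹ * l,
    Λ.mul_mem (Λ.inv_mem h1) hl, ⟨H.mul_mem (H.inv_mem h2) hlH, ?_⟩, by group⟩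
  refine Subgroup.mem_centralizer_iff.2 ?_
  intro a ha
  rw [mem_singleton_iff.1 ha]
  have h4 : r e * f * (r e)⁻¹ = l * f * l⁻¹ := h3
  calc f * ((r e)⁻¹ * l) = (r e)⁻¹ * (r e * f * (r e)⁻¹) * l := by group
    _ = (r e)⁻¹ * (l * f * l⁻¹) * l := by rw [h4]
    _ = (r e)⁻¹ * l * f := by group

omit [IsTopologicalGroup G] in
/-- a continuous homomorphism `H → ℝ` which is not trivial is not trivial on `Λ ∩ H` -/
lemma Cocpt.exists_ne_zero {Λ H : Subgroup G} (h : Cocpt Λ H) {φ : G → ℝ} (hφ : Continuous φ)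
    (hadd : ∀ a ∈ H, ∀ b ∈ H, φ (a * b) = φ a + φ b) {g : G} (hg : g ∈ H) (hne : φ g ≠ 0) :
    ∃ l ∈ Λ, l ∈ H ∧ φ l ≠ 0 := by
  by_contra hcon
  push Not at hcon
  obtain ⟨K, hK, hKH⟩ := h
  obtain ⟨B, hB⟩ := (hK.image hφ).isBounded.exists_norm_le
  have hb : ∀ h ∈ H, |φ h| ≤ B := by
    intro h hh
    obtain ⟨k, hk, l, hl, hlH, rfl⟩ := hKH h hh
    have hkH : k ∈ H := by
      have := H.mul_mem hh (H.inv_mem hlH)
      simpa using this
    rw [hadd k hkH l hlH, hcon l hl hlH, add_zero]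
    exact hB _ ⟨k, hk, rfl⟩
  have hpow : ∀ n : ℕ, g ^ (n + 1) ∈ H ∧ φ (g ^ (n + 1)) = (n + 1) * φ g := by
    intro n
    induction n with
    | zero => simp [hg]
    | succ n ih =>
      refine ⟨H.pow_mem hg _, ?_⟩
      rw [pow_succ, hadd _ ih.1 _ hg, ih.2]
      push_cast
      ring
  obtain ⟨n, hn⟩ := exists_nat_gt (B / |φ g|)
  have hpos : 0 < |φ g| := abs_pos.2 hne
  have h1 := hb _ (hpow n).1
  rw [(hpow n).2, abs_mul] at h1
  have h2 : |((n : ℝ) + 1)| = n + 1 := abs_of_pos (by positivity)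
  rw [h2] at h1
  rw [div_lt_iff₀ hpos] at hn
  nlinarith

end Cocompact

end Pool.Agent.Lib.MP_c749e3_al
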