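import Pool.Agent.Lib.MP_c749e3_al.Group8
import Pool.Agent.Lib.MP_c749e3_al.Length

/-!
# Word length in `G8`: short elements, and growth of coordinates
-/

open MeasureTheory Pointwise Set Topology
open scoped ENNReal NNReal

noncomputable section

namespace Pool.Agent.Lib.MP_c749e3_al

namespace G8

def eT (s : ℝ) : G8 := mk 0 s 0 0 0 0 0 0
def eP (s : ℝ) : G8 := mk 0 0 0 0 s 0 0 0
def eY (s : ℝ) : G8 := mk 0 0 s 0 0 0 0 0
def eM (s : ℝ) : G8 := mk 0 0 0 0 0 0 0 s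

lemma eT_add (a b : ℝ) : eT (a + b) = eT a * eT b := by
  ext <;> simp [eT]
lemma eP_add (a b : ℝ) : eP (a + b) = eP a * eP b := by
  ext <;> simp [eP]
lemma eY_add (a b : ℝ) : eY (a + b) = eY a * eY b := by
  ext <;> simp [eY]
lemma eM_add (a b : ℝ) : eM (a + b) = eM a * eM b := by
  ext <;> simp [eM]

lemma continuous_eT : Continuous eT := by
  unfold eT
  apply continuous_mk <;> fun_prop
lemma continuous_eP : Continuous eP := by
  unfold eP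
  apply continuous_mk <;> fun_prop
lemma continuous_eY : Continuous eY := by
  unfold eY
  apply continuous_mk <;> fun_prop

lemma eT_inv (s : ℝ) : (eT s)⁻¹ = eT (-s) := by
  ext <;> simp [eT]
lemma eP_inv (s : ℝ) : (eP s)⁻¹ = eP (-s) := by
  ext <;> simp [eP]

/-- the commutator `[T_s, P_b]` -/
lemma comm1 (s b : ℝ) : eT s * eP b * eT (-s) * eP (-b) =
    mk 0 0 0 0 0 (s * b) (s ^ 2 * b / 2) (s ^ 3 * b / 6 + s * b ^ 2 / 2) := by
  ext <;> simp [eT, eP] <;> ring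

lemma comm1' (s b : ℝ) : eP b * eT s * eP (-b) * eT (-s) =
    (mk 0 0 0 0 0 (s * b) (s ^ 2 * b / 2) (s ^ 3 * b / 6 + s * b ^ 2 / 2))⁻¹ := by
  rw [← comm1]
  rw [← eT_inv, ← eP_inv]
  group

/-- the commutator of `T_s` with an element of the `(q, w, m)` group -/
lemma comm2 (s a b c : ℝ) : eT s * mk 0 0 0 0 0 a b c * eT (-s) * (mk 0 0 0 0 0 a b c)⁻¹ =
    mk 0 0 0 0 0 0 (s * a) (s * b + s ^ 2 / 2 * a) := by
  ext <;> simp [eT] <;> ring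

/-- `M_{s^3 b}` as an iterated commutator -/
lemma comm3 (s b : ℝ) :
    eM (s ^ 3 * b) =
      eT s * (eT s * (eT s * eP b * eT (-s) * eP (-b)) * eT (-s) *
        (eP b * eT s * eP (-b) * eT (-s))) * eT (-s) *
      ((eT s * eP b * eT (-s) * eP (-b)) * eT s * (eP b * eT s * eP (-b) * eT (-s)) * eT (-s)) := by
  rw [comm1, comm1', comm2]
  have h : mk 0 0 0 0 0 (s * b) (s ^ 2 * b / 2) (s ^ 3 * b / 6 + s * b ^ 2 / 2) * eT s *
      (mk 0 0 0 0 0 (s * b) (s ^ 2 * b / 2) (s ^ 3 * b / 6 + s * b ^ 2 / 2))⁻¹ * eT (-s) =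
      (mk 0 0 0 0 0 0 (s * (s * b)) (s * (s ^ 2 * b / 2) + s ^ 2 / 2 * (s * b)))⁻¹ := by
    rw [← comm2 s (s * b) (s ^ 2 * b / 2) (s ^ 3 * b / 6 + s * b ^ 2 / 2), ← eT_inv]
    group
  rw [h, comm2]
  ext <;> simp [eM]
  ring

variable {S : Set G8}

lemma exists_len_M (hSc : IsCompact S) (hS : Generates S) :
    ∃ A : ℕ, ∀ (l : ℕ) (s : ℝ), |s| ≤ (l : ℝ) ^ 4 → wordLength S (eM s) ≤ A * l := by
  obtain ⟨A, hA⟩ := exists_wordLength_oneParam hSc hS continuous_eT (by rfl) eT_add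
  obtain ⟨B, hB⟩ := exists_wordLength_oneParam hSc hS continuous_eP (by rfl) eP_add
  refine ⟨14 * A + 8 * B, fun l s hs => ?_⟩
  rcases Nat.eq_zero_or_pos l with rfl | hl
  · have : s = 0 := by simpa using hs
    subst this
    have : eM 0 = 1 := rfl
    simp [this, wordLength_one]
  have hl' : (0 : ℝ) < l := by exact_mod_cast hl
  have e : s = (l : ℝ) ^ 3 * (s / (l : ℝ) ^ 3) := by field_simp
  have hb : |s / (l : ℝ) ^ 3| ≤ l := by
    rw [abs_div, abs_of_pos (by positivity : (0 : ℝ) < (l : ℝ) ^ 3), div_le_iff₀ (by positivity)]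
    calc |s| ≤ (l : ℝ) ^ 4 := hs
      _ = l * (l : ℝ) ^ 3 := by ring
  have hb' : |-(s / (l : ℝ) ^ 3)| ≤ l := by rwa [abs_neg]
  have hT : wordLength S (eT l) ≤ A * l := hA l l (by rw [abs_of_pos hl'])
  have hT' : wordLength S (eT (-l)) ≤ A * l := hA l (-l) (by rw [abs_neg, abs_of_pos hl'])
  have hP : wordLength S (eP (s / (l : ℝ) ^ 3)) ≤ B * l := hB l _ hb
  have hP' : wordLength S (eP (-(s / (l : ℝ) ^ 3))) ≤ B * l := hB l _ hb'
  have hmul : ∀ {g h : G8} {a b : ℕ}, wordLength S g ≤ a → wordLength S h ≤ b →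
      wordLength S (g * h) ≤ a + b := fun hg hh =>
    (wordLength_mul_le hS _ _).trans (Nat.add_le_add hg hh)
  have h1 := hmul (hmul (hmul hT hP) hT') hP'
  have h1' := hmul (hmul (hmul hP hT) hP') hT'
  have h2 := hmul (hmul (hmul hT h1) hT') h1'
  have h2' := hmul (hmul (hmul h1 hT) h1') hT'
  have h3 := hmul (hmul (hmul hT h2) hT') h2'
  rw [e, comm3]
  refine h3.trans (le_of_eq ?_)
  ring

/-- elements of the `(y, m)` group are short -/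
lemma exists_len_YM (hSc : IsCompact S) (hS : Generates S) :
    ∃ A : ℕ, 0 < A ∧ ∀ (l : ℕ) (a s : ℝ), |a| ≤ l → |s| ≤ (l : ℝ) ^ 4 →
      wordLength S (mk 0 0 a 0 0 0 0 s) ≤ A * l := by
  obtain ⟨A, hA⟩ := exists_wordLength_oneParam hSc hS continuous_eY (by rfl) eY_add
  obtain ⟨B, hB⟩ := exists_len_M hSc hS
  refine ⟨A + B + 1, by omega, fun l a s ha hs => ?_⟩
  have e : mk 0 0 a 0 0 0 0 s = eY a * eM s := by
    ext <;> simp [eY, eM]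
  rw [e]
  calc wordLength S (eY a * eM s) ≤ wordLength S (eY a) + wordLength S (eM s) :=
        wordLength_mul_le hS _ _
    _ ≤ A * l + B * l := Nat.add_le_add (hA l a ha) (hB l s hs)
    _ ≤ (A + B + 1) * l := by nlinarith

lemma exists_R (hSc : IsCompact S) : ∃ R : ℝ, 1 ≤ R ∧ ∀ g ∈ S, |g.x| ≤ R ∧ |g.t| ≤ R ∧
    |g.y| ≤ R ∧ |g.z| ≤ R ∧ |g.p| ≤ R ∧ |g.q| ≤ R ∧ |g.w| ≤ R ∧ |g.m| ≤ R := by
  have hbd : ∀ {f : G8 → ℝ}, Continuous f → ∃ B : ℝ, ∀ g ∈ S, |f g| ≤ B := by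
    intro f hf
    obtain ⟨B, hB⟩ := (hSc.image hf).isBounded.exists_norm_le
    exact ⟨B, fun g hg => hB _ ⟨g, hg, rfl⟩⟩
  obtain ⟨b1, h1⟩ := hbd continuous_x
  obtain ⟨b2, h2⟩ := hbd continuous_t
  obtain ⟨b3, h3⟩ := hbd continuous_y
  obtain ⟨b4, h4⟩ := hbd continuous_z
  obtain ⟨b5, h5⟩ := hbd continuous_p
  obtain ⟨b6, h6⟩ := hbd continuous_q
  obtain ⟨b7, h7⟩ := hbd continuous_w
  obtain ⟨b8, h8⟩ := hbd continuous_m
  have p1 := abs_nonneg b1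
  have p2 := abs_nonneg b2
  have p3 := abs_nonneg b3
  have p4 := abs_nonneg b4
  have p5 := abs_nonneg b5
  have p6 := abs_nonneg b6
  have p7 := abs_nonneg b7
  have p8 := abs_nonneg b8
  refine ⟨1 + |b1| + |b2| + |b3| + |b4| + |b5| + |b6| + |b7| + |b8|, by linarith, fun g hg => ?_⟩
  refine ⟨?_, ?_, ?_, ?_, ?_, ?_, ?_, ?_⟩
  · linarith [h1 g hg, le_abs_self b1]
  · linarith [h2 g hg, le_abs_self b2]
  · linarith [h3 g hg, le_abs_self b3]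
  · linarith [h4 g hg, le_abs_self b4]
  · linarith [h5 g hg, le_abs_self b5]
  · linarith [h6 g hg, le_abs_self b6]
  · linarith [h7 g hg, le_abs_self b7]
  · linarith [h8 g hg, le_abs_self b8]

lemma mulb {u v U V : ℝ} (hu : |u| ≤ U) (hv : |v| ≤ V) : |u * v| ≤ U * V := by
  rw [abs_mul]
  exact mul_le_mul hu hv (abs_nonneg _) ((abs_nonneg _).trans hu)

lemma powb {u U : ℝ} (k : ℕ) (hu : |u| ≤ U) : |u ^ k| ≤ U ^ k := by
  rw [abs_pow]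
  exact pow_le_pow_left₀ (abs_nonneg _) hu k

/-- one step of the induction -/
lemma coord_step {R n : ℝ} (hR1 : 1 ≤ R) (hn : 0 ≤ n) {a s : G8}
    (i1 : |a.x| ≤ R * n) (i2 : |a.t| ≤ R * n) (i3 : |a.y| ≤ R * n) (i4 : |a.p| ≤ R * n)
    (i5 : |a.z| ≤ R ^ 2 * n ^ 2) (i6 : |a.q| ≤ R ^ 2 * n ^ 2) (i7 : |a.w| ≤ R ^ 3 * n ^ 3)
    (i8 : |a.m| ≤ R ^ 4 * n ^ 4)
    (j1 : |s.x| ≤ R) (j2 : |s.t| ≤ R) (j3 : |s.y| ≤ R) (j4 : |s.z| ≤ R) (j5 : |s.p| ≤ R)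
    (j6 : |s.q| ≤ R) (j7 : |s.w| ≤ R) (j8 : |s.m| ≤ R) :
    |(a * s).x| ≤ R * (n + 1) ∧ |(a * s).t| ≤ R * (n + 1) ∧ |(a * s).y| ≤ R * (n + 1) ∧
      |(a * s).p| ≤ R * (n + 1) ∧ |(a * s).z| ≤ R ^ 2 * (n + 1) ^ 2 ∧
      |(a * s).q| ≤ R ^ 2 * (n + 1) ^ 2 ∧ |(a * s).w| ≤ R ^ 3 * (n + 1) ^ 3 ∧
      |(a * s).m| ≤ R ^ 4 * (n + 1) ^ 4 := by
  have hR0 : 0 ≤ R := by linarith
  have e1 := abs_le.1 (mulb i1 j3)
  have e2 := abs_le.1 (mulb i2 j5)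
  have e3 := abs_le.1 (mulb i2 j6)
  have e4 := abs_le.1 (mulb (powb 2 i2) j5)
  have e5 := abs_le.1 (mulb i1 j4)
  have e6 := abs_le.1 (mulb (powb 2 i1) j3)
  have e7 := abs_le.1 (mulb i2 j7)
  have e8 := abs_le.1 (mulb (powb 2 i2) j6)
  have e9 := abs_le.1 (mulb (powb 3 i2) j5)
  have e10 := abs_le.1 (mulb i4 j6)
  have e11 := abs_le.1 (mulb i4 (mulb i2 j5))
  have e12 := abs_le.1 (mulb i6 j5)
  have r2 : R ≤ R ^ 2 := by nlinarith
  have r3 : R ^ 2 ≤ R ^ 3 := pow_le_pow_right₀ hR1 (by norm_num)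
  have r4 : R ^ 3 ≤ R ^ 4 := pow_le_pow_right₀ hR1 (by norm_num)
  have s1 : R ^ 2 * n ≤ R ^ 3 * n := mul_le_mul_of_nonneg_right r3 hn
  have s2 : R ^ 3 * n ≤ R ^ 4 * n := mul_le_mul_of_nonneg_right r4 hn
  have s3 : R ^ 3 * n ^ 2 ≤ R ^ 4 * n ^ 2 := mul_le_mul_of_nonneg_right r4 (by positivity)
  have q0 : 0 ≤ R ^ 2 * n := by positivity
  have q1 : 0 ≤ R ^ 3 * n := by positivity
  have q2 : 0 ≤ R ^ 3 * n ^ 2 := by positivity
  have q3 : 0 ≤ R ^ 4 * n ^ 2 := by positivity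
  have q4 : 0 ≤ R ^ 4 * n ^ 3 := by positivity
  have q5 : 0 ≤ R ^ 4 * n := by positivity
  rw [abs_le] at i1 i2 i3 i4 i5 i6 i7 i8 j1 j2 j3 j4 j5 j6 j7 j8
  refine ⟨?_, ?_, ?_, ?_, ?_, ?_, ?_, ?_⟩
  · rw [mul_x, abs_le]
    constructor
    · linarith only [i1.1, j1.1]
    · linarith only [i1.2, j1.2]
  · rw [mul_t, abs_le]
    constructor
    · linarith only [i2.1, j2.1]
    · linarith only [i2.2, j2.2]
  · rw [mul_y, abs_le]
    constructor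
    · linarith only [i3.1, j3.1]
    · linarith only [i3.2, j3.2]
  · rw [mul_p, abs_le]
    constructor
    · linarith only [i4.1, j5.1]
    · linarith only [i4.2, j5.2]
  · rw [mul_z, abs_le]
    constructor
    · linarith only [i5.1, j4.1, e1.1, r2, q0]
    · linarith only [i5.2, j4.2, e1.2, r2, q0]
  · rw [mul_q, abs_le]
    constructor
    · linarith only [i6.1, j6.1, e2.1, r2, q0]
    · linarith only [i6.2, j6.2, e2.2, r2, q0]
  · rw [mul_w, abs_le]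
    constructor
    · linarith only [i7.1, j7.1, e3.1, e4.1, r2, r3, s1, q0, q1, q2]
    · linarith only [i7.2, j7.2, e3.2, e4.2, r2, r3, s1, q0, q1, q2]
  · rw [mul_m, abs_le]
    constructor
    · linarith only [i8.1, j8.1, e5.1, e6.1, e7.1, e8.1, e9.1, e10.1, e11.1, e12.2, r2, r3, r4,
        s1, s2, s3, q0, q1, q2, q3, q4, q5]
    · linarith only [i8.2, j8.2, e5.2, e6.2, e7.2, e8.2, e9.2, e10.2, e11.2, e12.1, r2, r3, r4,
        s1, s2, s3, q0, q1, q2, q3, q4, q5]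

/-- growth of coordinates: the bounds satisfied by products of `n` elements of `S` -/
lemma exists_coord_bound (hSc : IsCompact S) :
    ∃ B : ℝ, 1 ≤ B ∧ ∀ (n : ℕ) (g : G8), g ∈ S ^ n →
      |g.x| ≤ B * n ∧ |g.t| ≤ B * n ∧ |g.y| ≤ B * n ∧ |g.p| ≤ B * n ∧
      |g.z| ≤ B * n ^ 2 ∧ |g.q| ≤ B * n ^ 2 ∧ |g.w| ≤ B * n ^ 3 ∧ |g.m| ≤ B * n ^ 4 := by
  obtain ⟨R, hR1, hR⟩ := exists_R hSc
  have key : ∀ (n : ℕ) (g : G8), g ∈ S ^ n →
      |g.x| ≤ R * n ∧ |g.t| ≤ R * n ∧ |g.y| ≤ R * n ∧ |g.p| ≤ R * n ∧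
      |g.z| ≤ R ^ 2 * n ^ 2 ∧ |g.q| ≤ R ^ 2 * n ^ 2 ∧ |g.w| ≤ R ^ 3 * n ^ 3 ∧
      |g.m| ≤ R ^ 4 * n ^ 4 := by
    intro n
    induction n with
    | zero =>
      intro g hg
      simp only [pow_zero, mem_one] at hg
      subst hg
      simp
    | succ n ih =>
      intro g hg
      rw [pow_succ] at hg
      obtain ⟨a, ha, s, hs, rfl⟩ := hg
      obtain ⟨i1, i2, i3, i4, i5, i6, i7, i8⟩ := ih a ha
      obtain ⟨j1, j2, j3, j4, j5, j6, j7, j8⟩ := hR s hs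
      rw [Nat.cast_add, Nat.cast_one]
      exact coord_step hR1 (Nat.cast_nonneg n) i1 i2 i3 i4 i5 i6 i7 i8 j1 j2 j3 j4 j5 j6 j7 j8
  have hR0 : 0 ≤ R := by linarith
  have r1 : R ≤ R ^ 4 := le_self_pow₀ hR1 (by norm_num)
  have r2 : R ^ 2 ≤ R ^ 4 := pow_le_pow_right₀ hR1 (by norm_num)
  have r3 : R ^ 3 ≤ R ^ 4 := pow_le_pow_right₀ hR1 (by norm_num)
  refine ⟨R ^ 4, one_le_pow₀ hR1, fun n g hg => ?_⟩
  obtain ⟨i1, i2, i3, i4, i5, i6, i7, i8⟩ := key n g hg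
  have hn : (0 : ℝ) ≤ n := Nat.cast_nonneg n
  exact ⟨i1.trans (mul_le_mul_of_nonneg_right r1 hn), i2.trans (mul_le_mul_of_nonneg_right r1 hn),
    i3.trans (mul_le_mul_of_nonneg_right r1 hn), i4.trans (mul_le_mul_of_nonneg_right r1 hn),
    i5.trans (mul_le_mul_of_nonneg_right r2 (by positivity)),
    i6.trans (mul_le_mul_of_nonneg_right r2 (by positivity)),
    i7.trans (mul_le_mul_of_nonneg_right r3 (by positivity)), i8⟩

end G8

end Pool.Agent.Lib.MP_c749e3_al
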