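import Pool.Agent.Lib.MP_c749e3_al.RatG8
import Pool.Agent.Lib.MP_c749e3_al.HaarG8
import Pool.Agent.Lib.MP_c749e3_al.FundDom

/-!
# The lower bound: lattices of `G8` of large uniform systole have large covolume
-/

open MeasureTheory Pointwise Set Topology
open scoped ENNReal NNReal

noncomputable section

namespace Pool.Agent.Lib.MP_c749e3_al

namespace G8

lemma exists_pair {Λ : Subgroup G8} {P Q : G8 → Prop} {φ ψ : G8 → ℝ} {s : ℝ} (hs : 0 < s)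
    (hP : ∃ l ∈ Λ, P l ∧ φ l ≠ 0) (hQ : ∃ v ∈ Λ, Q v ∧ ψ v ≠ 0)
    (h : ∀ l ∈ Λ, P l → φ l ≠ 0 → ∀ v ∈ Λ, Q v → ψ v ≠ 0 → s ≤ |φ l| * |ψ v|) :
    ∃ α β : ℝ, 0 < α ∧ 0 < β ∧ α * β = s ∧ (∀ l ∈ Λ, P l → φ l ≠ 0 → α ≤ |φ l|) ∧
      (∀ v ∈ Λ, Q v → ψ v ≠ 0 → β ≤ |ψ v|) := by
  set A : Set ℝ := {a | ∃ l ∈ Λ, P l ∧ φ l ≠ 0 ∧ a = |φ l|} with hA
  have hAne : A.Nonempty := by
    obtain ⟨l, hl, hPl, hne⟩ := hP
    exact ⟨_, l, hl, hPl, hne, rfl⟩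
  have hAb : BddBelow A := ⟨0, by
    rintro _ ⟨l, -, -, -, rfl⟩
    exact abs_nonneg _⟩
  obtain ⟨v0, hv0, hQ0, hne0⟩ := hQ
  have hv0' : 0 < |ψ v0| := abs_pos.2 hne0
  have hpos : 0 < sInf A := by
    refine lt_of_lt_of_le (div_pos hs hv0') (le_csInf hAne ?_)
    rintro _ ⟨l, hl, hPl, hne, rfl⟩
    rw [div_le_iff₀ hv0']
    exact h l hl hPl hne v0 hv0 hQ0 hne0
  refine ⟨sInf A, s / sInf A, hpos, div_pos hs hpos, by field_simp, ?_, ?_⟩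
  · intro l hl hPl hne
    exact csInf_le hAb ⟨l, hl, hPl, hne, rfl⟩
  · intro v hv hQv hne
    have hv' : 0 < |ψ v| := abs_pos.2 hne
    rw [div_le_iff₀ hpos, mul_comm, ← div_le_iff₀ hv']
    refine le_csInf hAne ?_
    rintro _ ⟨l, hl, hPl, hne', rfl⟩
    rw [div_le_iff₀ hv']
    exact h l hl hPl hne' v hv hQv hne

lemma ym_pow (a s : ℝ) (k : ℕ) : (mk 0 0 a 0 0 0 0 s) ^ k = mk 0 0 (k * a) 0 0 0 0 (k * s) := by
  induction k with
  | zero =>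
    simp
    rfl
  | succ k ih =>
    rw [pow_succ, ih]
    ext <;> simp <;> ring

/-- conjugation by `X_c` with `c = - z / y` kills the `z` coordinate -/
lemma conj_kill {v : G8} (h1 : v.x = 0) (h2 : v.t = 0) (h3 : v.p = 0) (h4 : v.q = 0)
    (h5 : v.w = 0) (hy : v.y ≠ 0) :
    mk (-v.z / v.y) 0 0 0 0 0 0 0 * v * (mk (-v.z / v.y) 0 0 0 0 0 0 0)⁻¹ =
      mk 0 0 v.y 0 0 0 0 (v.m - v.z ^ 2 / (2 * v.y)) := by
  ext <;> simp [h1, h2, h3, h4, h5]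
  · field_simp
    ring
  · field_simp
    ring

variable {S : Set G8} {Λ : Subgroup G8}

/-- the key estimate: small `y` forces large central elements -/
lemma y_large {A l : ℕ} (hl : 0 < l)
    (hA : ∀ (a s : ℝ), |a| ≤ l → |s| ≤ (l : ℝ) ^ 4 → wordLength S (mk 0 0 a 0 0 0 0 s) ≤ A * l)
    (hsys : ∀ h : G8, ∀ v ∈ Λ, v ≠ 1 → A * l < wordLength S (h * v * h⁻¹))
    {s : ℝ} (hs : 0 < s) (hsΛ : eM s ∈ Λ) {v : G8} (hv : v ∈ Λ)
    (h1 : v.x = 0) (h2 : v.t = 0) (h3 : v.p = 0) (h4 : v.q = 0) (h5 : v.w = 0) (hy : v.y ≠ 0)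
    (hyl : |v.y| ≤ l) : (l : ℝ) ^ 5 < s * |v.y| := by
  by_contra hcon
  push Not at hcon
  have hl' : (0 : ℝ) < l := by exact_mod_cast hl
  have hy' : 0 < |v.y| := abs_pos.2 hy
  set J : ℕ := ⌊(l : ℝ) / |v.y|⌋₊ with hJ
  have hJ1 : 0 < J := by
    rw [hJ, Nat.floor_pos, le_div_iff₀ hy', one_mul]
    exact hyl
  have hJle : (J : ℝ) * |v.y| ≤ l := by
    rw [← le_div_iff₀ hy']
    exact Nat.floor_le (by positivity)
  have hJlt : (l : ℝ) < (J + 1) * |v.y| := by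
    rw [← div_lt_iff₀ hy']
    exact Nat.lt_floor_add_one _
  set m' : ℝ := v.m - v.z ^ 2 / (2 * v.y) with hm'
  obtain ⟨k, hk0, hkJ, hk⟩ := Real.exists_nat_abs_mul_sub_round_le (m' / s) hJ1
  set j : ℤ := round (k * (m' / s)) with hj
  have hjs : eM (-(j * s)) ∈ Λ := by
    have hz : ∀ n : ℕ, eM (n * s) ∈ Λ := by
      intro n
      induction n with
      | zero =>
        have : eM ((0 : ℕ) * s) = 1 := by
          rw [Nat.cast_zero, zero_mul]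
          rfl
        rw [this]
        exact Λ.one_mem
      | succ n ih =>
        have : eM ((n + 1 : ℕ) * s) = eM (n * s) * eM s := by
          rw [← eM_add]
          congr 1
          push_cast
          ring
        rw [this]
        exact Λ.mul_mem ih hsΛ
    have hinv : ∀ r : ℝ, eM r ∈ Λ → eM (-r) ∈ Λ := by
      intro r hr
      have : eM (-r) = (eM r)⁻¹ := by
        ext <;> simp [eM]
      rw [this]
      exact Λ.inv_mem hr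
    obtain ⟨n, hn | hn⟩ := j.eq_nat_or_neg
    · rw [hn]
      exact hinv _ (by simpa using hz n)
    · rw [hn]
      simpa using hz n
  set u : G8 := v ^ k * eM (-(j * s)) with hu
  have huΛ : u ∈ Λ := Λ.mul_mem (Λ.pow_mem hv k) hjs
  set c : G8 := mk (-v.z / v.y) 0 0 0 0 0 0 0 with hc
  have hconj : c * u * c⁻¹ = mk 0 0 (k * v.y) 0 0 0 0 (k * m' - j * s) := by
    have e1 : c * u * c⁻¹ = (c * v * c⁻¹) ^ k * (c * eM (-(j * s)) * c⁻¹) := by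
      rw [hu, conj_pow]
      group
    have e2 : c * eM (-(j * s)) * c⁻¹ = eM (-(j * s)) := by
      ext <;> simp [eM, hc]
    rw [e1, e2, hc, conj_kill h1 h2 h3 h4 h5 hy, ← hm', ym_pow]
    ext <;> simp [eM]
    ring
  have hk0' : (0 : ℝ) < k := by exact_mod_cast hk0
  have hu1 : u ≠ 1 := by
    intro h
    rw [h] at hconj
    have := congrArg y hconj
    simp at this
    rcases this with h | h
    · omega
    · exact hy h
  have hlt := hsys c u huΛ hu1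
  rw [hconj] at hlt
  refine absurd (hA (k * v.y) (k * m' - j * s) ?_ ?_) (not_le.2 hlt)
  · rw [abs_mul, abs_of_pos hk0']
    calc (k : ℝ) * |v.y| ≤ J * |v.y| := by
          gcongr
      _ ≤ l := hJle
  · have e3 : (k : ℝ) * m' - j * s = s * (k * (m' / s) - j) := by
      field_simp
    rw [e3, abs_mul, abs_of_pos hs]
    calc s * |k * (m' / s) - j| ≤ s * (1 / (J + 1)) := by gcongr
      _ = s / (J + 1) := by ring
      _ ≤ (l : ℝ) ^ 4 := by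
        rw [div_le_iff₀ (by positivity)]
        have h6 : s * l ≤ (l : ℝ) ^ 4 * (J + 1) * l := by
          calc s * l ≤ s * ((J + 1) * |v.y|) := by gcongr
            _ = (s * |v.y|) * (J + 1) := by ring
            _ ≤ (l : ℝ) ^ 5 * (J + 1) := by gcongr
            _ = (l : ℝ) ^ 4 * (J + 1) * l := by ring
        exact le_of_mul_le_mul_right h6 hl'

lemma abs_lt_of_Ico {a b d r : ℝ} (ha : a ∈ Ico 0 r) (hb : b ∈ Ico 0 r) (h : b = d + a) :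
    |d| < r := by
  rw [abs_lt]
  constructor
  · linarith [ha.2, hb.1]
  · linarith [ha.1, hb.2]

/-- a box which is small with respect to successive minima meets every orbit at most once -/
lemma packing {α₁ α₂ α₃ β₁ β₂ β₃ υ s : ℝ}
    (hx : ∀ l ∈ Λ, True → l.x ≠ 0 → α₁ ≤ |l.x|)
    (hz : ∀ l ∈ Λ, (l.x = 0 ∧ l.t = 0 ∧ l.y = 0 ∧ l.p = 0 ∧ l.q = 0 ∧ l.w = 0) → l.z ≠ 0 →
      β₁ ≤ |l.z|)
    (ht : ∀ l ∈ Λ, l.x = 0 → l.t ≠ 0 → α₂ ≤ |l.t|)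
    (hw : ∀ l ∈ Λ, (l.x = 0 ∧ l.t = 0 ∧ l.p = 0 ∧ l.q = 0) → l.w ≠ 0 → β₂ ≤ |l.w|)
    (hp : ∀ l ∈ Λ, (l.x = 0 ∧ l.t = 0) → l.p ≠ 0 → α₃ ≤ |l.p|)
    (hq : ∀ l ∈ Λ, (l.x = 0 ∧ l.t = 0 ∧ l.p = 0) → l.q ≠ 0 → β₃ ≤ |l.q|)
    (hy : ∀ l ∈ Λ, l.x = 0 → l.t = 0 → l.p = 0 → l.q = 0 → l.w = 0 → l.y ≠ 0 → υ ≤ |l.y|)
    (hm : ∀ r : ℝ, r ≠ 0 → eM r ∈ Λ → s ≤ |r|)
    {l g : G8} (hl : l ∈ Λ) (hg : g ∈ box α₁ α₂ υ β₁ α₃ β₃ β₂ s)
    (hlg : l * g ∈ box α₁ α₂ υ β₁ α₃ β₃ β₂ s) : l = 1 := by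
  obtain ⟨g1, g2, g3, g4, g5, g6, g7, g8⟩ := hg
  obtain ⟨k1, k2, k3, k4, k5, k6, k7, k8⟩ := hlg
  have lx : l.x = 0 := by
    by_contra hne
    exact absurd (hx l hl trivial hne) (not_le.2 (abs_lt_of_Ico g1 k1 (by simp)))
  have lt : l.t = 0 := by
    by_contra hne
    exact absurd (ht l hl lx hne) (not_le.2 (abs_lt_of_Ico g2 k2 (by simp)))
  have lp : l.p = 0 := by
    by_contra hne
    exact absurd (hp l hl ⟨lx, lt⟩ hne) (not_le.2 (abs_lt_of_Ico g5 k5 (by simp)))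
  have lq : l.q = 0 := by
    by_contra hne
    exact absurd (hq l hl ⟨lx, lt, lp⟩ hne) (not_le.2 (abs_lt_of_Ico g6 k6 (by simp [lt])))
  have lw : l.w = 0 := by
    by_contra hne
    exact absurd (hw l hl ⟨lx, lt, lp, lq⟩ hne) (not_le.2 (abs_lt_of_Ico g7 k7 (by simp [lt])))
  have ly : l.y = 0 := by
    by_contra hne
    exact absurd (hy l hl lx lt lp lq lw hne) (not_le.2 (abs_lt_of_Ico g3 k3 (by simp)))
  have lz : l.z = 0 := by
    by_contra hne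
    exact absurd (hz l hl ⟨lx, lt, ly, lp, lq, lw⟩ hne)
      (not_le.2 (abs_lt_of_Ico g4 k4 (by simp [lx])))
  have e : l = eM l.m := by
    ext <;> simp [eM, lx, lt, ly, lz, lp, lq, lw]
  have lm : l.m = 0 := by
    by_contra hne
    exact absurd (hm l.m hne (by rwa [← e]))
      (not_le.2 (abs_lt_of_Ico g8 k8 (by simp [lx, lt, lp, lq])))
  rw [e, lm]
  rfl

/-- the lower bound on the covolume in terms of the uniform systole -/
theorem lower_bound (hSc : IsCompact S) (hS : Generates S) :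
    ∃ A : ℕ, 0 < A ∧ ∀ (Λ : Subgroup G8), IsLattice Λ → ∀ l : ℕ, 0 < l →
      (∀ h : G8, ∀ v ∈ Λ, v ≠ 1 → A * l < wordLength S (h * v * h⁻¹)) →
      ∀ (μ : Measure G8) [μ.IsHaarMeasure] (c : ℝ≥0), μ = c • leb →
      c * ENNReal.ofReal ((l : ℝ) ^ 17 / 2) ≤ covolume Λ G8 μ := by
  obtain ⟨A, hA0, hA⟩ := exists_len_YM hSc hS
  refine ⟨A, hA0, fun Λ hΛ l hl hsys μ _ c hμ => ?_⟩
  have hl' : (0 : ℝ) < l := by exact_mod_cast hl
  haveI := hΛ.1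
  have hco : Cocpt Λ ⊤ := cocpt_top hΛ.2
  obtain ⟨E1, E2, E3, E4, E5, E6, s1, hs1, hs1Λ⟩ := lattice_elements hco
  -- central elements are large
  have hcent : ∀ s : ℝ, s ≠ 0 → eM s ∈ Λ → (l : ℝ) ^ 4 < |s| := by
    intro s hs hsΛ
    by_contra hcon
    push Not at hcon
    have h1 := hsys 1 (eM s) hsΛ (by
      intro h
      exact hs (congrArg m h))
    simp only [one_mul, inv_one, mul_one] at h1
    exact absurd (hA l 0 s (by simp) hcon) (not_le.2 h1)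
  -- the infimum of the central elements
  set Z : Set ℝ := {s | 0 < s ∧ eM s ∈ Λ} with hZ
  have hZne : Z.Nonempty := by
    rcases lt_or_gt_of_ne hs1 with h | h
    · refine ⟨-s1, by linarith, ?_⟩
      have : eM (-s1) = (eM s1)⁻¹ := by
        ext <;> simp [eM]
      rw [this]
      exact Λ.inv_mem hs1Λ
    · exact ⟨s1, h, hs1Λ⟩
  have hZb : BddBelow Z := ⟨0, fun s hs => hs.1.le⟩
  set s0 : ℝ := sInf Z with hs0
  have hs0l : (l : ℝ) ^ 4 ≤ s0 := by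
    refine le_csInf hZne ?_
    rintro s ⟨hs, hsΛ⟩
    have := hcent s hs.ne' hsΛ
    rw [abs_of_pos hs] at this
    exact this.le
  have hs0pos : 0 < s0 := lt_of_lt_of_le (by positivity) hs0l
  have hs0min : ∀ r : ℝ, r ≠ 0 → eM r ∈ Λ → s0 ≤ |r| := by
    intro r hr hrΛ
    rcases lt_or_gt_of_ne hr with h | h
    · refine csInf_le hZb ⟨abs_pos.2 hr, ?_⟩
      rw [abs_of_neg h]
      have : eM (-r) = (eM r)⁻¹ := by
        ext <;> simp [eM]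
      rw [this]
      exact Λ.inv_mem hrΛ
    · rw [abs_of_pos h]
      exact csInf_le hZb ⟨h, hrΛ⟩
  obtain ⟨s, ⟨hspos, hsΛ⟩, hs2⟩ : ∃ s ∈ Z, s < 2 * s0 := exists_lt_of_csInf_lt hZne (by linarith)
  -- the estimate for `y`
  set υ : ℝ := min (l : ℝ) ((l : ℝ) ^ 5 / (2 * s0)) with hυ
  have hυpos : 0 < υ := lt_min hl' (by positivity)
  have hy : ∀ v ∈ Λ, v.x = 0 → v.t = 0 → v.p = 0 → v.q = 0 → v.w = 0 → v.y ≠ 0 →
      υ ≤ |v.y| := by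
    intro v hv h1 h2 h3 h4 h5 hne
    rcases le_or_gt (|v.y|) (l : ℝ) with hle | hgt
    · refine (min_le_right _ _).trans ?_
      have h6 := y_large hl (hA l) hsys hspos hsΛ hv h1 h2 h3 h4 h5 hne hle
      rw [div_le_iff₀ (by positivity)]
      nlinarith [abs_pos.2 hne]
    · exact (min_le_left _ _).trans hgt.le
  -- the three pairs
  obtain ⟨α₁, β₁, hα₁, hβ₁, hαβ₁, hx, hz⟩ := exists_pair (Λ := Λ) (P := fun _ => True)
    (Q := fun v => v.x = 0 ∧ v.t = 0 ∧ v.y = 0 ∧ v.p = 0 ∧ v.q = 0 ∧ v.w = 0)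
    (φ := x) (ψ := z) hs0pos
    (by obtain ⟨a, ha, hax⟩ := E1; exact ⟨a, ha, trivial, hax⟩)
    (by obtain ⟨v, hv, a1, a2, a3, a4, a5, a6, a7⟩ := E2
        exact ⟨v, hv, ⟨a1, a2, a3, a4, a5, a6⟩, a7⟩)
    (by
      rintro a ha - hax v hv ⟨a1, a2, a3, a4, a5, a6⟩ hvz
      rw [← abs_mul]
      refine hs0min _ (mul_ne_zero hax hvz) ?_
      have h7 := comm_ZW a v a1 a2 a3 a4 a5
      rw [a6, mul_zero, add_zero] at h7
      rw [← h7]
      exact comm_mem ha hv)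
  obtain ⟨α₂, β₂, hα₂, hβ₂, hαβ₂, ht, hw⟩ := exists_pair (Λ := Λ) (P := fun v => v.x = 0)
    (Q := fun v => v.x = 0 ∧ v.t = 0 ∧ v.p = 0 ∧ v.q = 0)
    (φ := t) (ψ := w) hs0pos
    (by obtain ⟨a, ha, h0, hax⟩ := E3; exact ⟨a, ha, h0, hax⟩)
    (by obtain ⟨v, hv, a1, a2, a3, a4, a5⟩ := E4
        exact ⟨v, hv, ⟨a1, a2, a3, a4⟩, a5⟩)
    (by
      rintro a ha h0 hax v hv ⟨a1, a2, a3, a4⟩ hvz
      rw [← abs_mul]
      refine hs0min _ (mul_ne_zero hax hvz) ?_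
      rw [← comm_TW a v h0 a1 a2 a3 a4]
      exact comm_mem ha hv)
  obtain ⟨α₃, β₃, hα₃, hβ₃, hαβ₃, hp, hq⟩ := exists_pair (Λ := Λ)
    (P := fun v => v.x = 0 ∧ v.t = 0)
    (Q := fun v => v.x = 0 ∧ v.t = 0 ∧ v.p = 0)
    (φ := p) (ψ := q) hs0pos
    (by obtain ⟨a, ha, h0, h0', hax⟩ := E5; exact ⟨a, ha, ⟨h0, h0'⟩, hax⟩)
    (by obtain ⟨v, hv, a1, a2, a3, a4⟩ := E6
        exact ⟨v, hv, ⟨a1, a2, a3⟩, a4⟩)
    (by
      rintro a ha ⟨h0, h0'⟩ hax v hv ⟨a1, a2, a3⟩ hvz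
      rw [← abs_mul]
      refine hs0min _ (mul_ne_zero hax hvz) ?_
      rw [← comm_PQ a v h0 h0' a1 a2 a3]
      exact comm_mem ha hv)
  -- compare the box with a fundamental domain
  obtain ⟨F, hF⟩ := exists_isFundamentalDomain Λ μ
  haveI : Countable Λ := TopologicalSpace.separableSpace_iff_countable.1 inferInstance
  rw [hF.covolume_eq_volume]
  have hbox : μ (box α₁ α₂ υ β₁ α₃ β₃ β₂ s0) ≤ μ F := by
    by_contra hcon
    push Not at hcon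
    obtain ⟨a, ha, b, hb, g, hg, hgab⟩ := hF.exists_ne_one_smul_eq
      (measurableSet_box α₁ α₂ υ β₁ α₃ β₃ β₂ s0).nullMeasurableSet hcon
    apply hg
    have h8 : (g : G8) * a = b := hgab
    exact Subtype.ext (packing hx hz ht hw hp hq hy hs0min g.2 ha (by rw [h8]; exact hb))
  refine le_trans ?_ hbox
  rw [hμ, Measure.smul_apply, leb_box hα₁.le hα₂.le hυpos.le hβ₁.le hα₃.le hβ₃.le hβ₂.le]
  rw [ENNReal.smul_def, smul_eq_mul]
  gcongr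
  have e : α₁ * α₂ * υ * β₁ * α₃ * β₃ * β₂ * s0 = s0 ^ 4 * υ := by
    calc α₁ * α₂ * υ * β₁ * α₃ * β₃ * β₂ * s0
        = (α₁ * β₁) * (α₂ * β₂) * (α₃ * β₃) * s0 * υ := by ring
      _ = s0 ^ 4 * υ := by rw [hαβ₁, hαβ₂, hαβ₃]; ring
  rw [e, hυ]
  have hpow : ∀ k : ℕ, ((l : ℝ) ^ 4) ^ k ≤ s0 ^ k := fun k =>
    pow_le_pow_left₀ (by positivity) hs0l k
  rcases min_cases (l : ℝ) ((l : ℝ) ^ 5 / (2 * s0)) with ⟨h9, -⟩ | ⟨h9, -⟩
  · rw [h9]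
    calc (l : ℝ) ^ 17 / 2 ≤ (l : ℝ) ^ 17 := by
          have : (0 : ℝ) ≤ (l : ℝ) ^ 17 := by positivity
          linarith
      _ = ((l : ℝ) ^ 4) ^ 4 * l := by ring
      _ ≤ s0 ^ 4 * l := by
          gcongr
  · rw [h9]
    calc (l : ℝ) ^ 17 / 2 = ((l : ℝ) ^ 4) ^ 3 * ((l : ℝ) ^ 5 / 2) := by ring
      _ ≤ s0 ^ 3 * ((l : ℝ) ^ 5 / 2) := by
          gcongr
      _ = s0 ^ 4 * ((l : ℝ) ^ 5 / (2 * s0)) := by
          field_simp

end G8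

end Pool.Agent.Lib.MP_c749e3_al
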