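import Pool.Agent.Lib.MP_c749e3_al.Group8
import Pool.Agent.Lib.MP_c749e3_al.LengthG8

/-!
# Special elements of an arbitrary lattice of `G8`
-/

open MeasureTheory Pointwise Set Topology
open scoped ENNReal NNReal

noncomputable section

namespace Pool.Agent.Lib.MP_c749e3_al

namespace G8

lemma mem_cent {g f : G8} : g ∈ Subgroup.centralizer {f} ↔ f * g = g * f := by
  rw [Subgroup.mem_centralizer_iff]
  simp

/-- centralisers of elements of the third term of the lower central series -/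
lemma cent_W {g f : G8} (h1 : f.x = 0) (h2 : f.t = 0) (h3 : f.y = 0) (h4 : f.z = 0)
    (h5 : f.p = 0) (h6 : f.q = 0) (h7 : f.w ≠ 0) :
    g ∈ Subgroup.centralizer {f} ↔ g.t = 0 := by
  rw [mem_cent]
  constructor
  · intro h
    have := congrArg m h
    simp [h1, h2, h3, h4, h5, h6] at this
    have h8 : g.t * f.w = 0 := by linarith
    exact (mul_eq_zero.1 h8).resolve_right h7
  · intro h
    ext <;> simp [h1, h2, h3, h4, h5, h6, h, add_comm]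

/-- centralisers of elements of the group `⟨z, m⟩` -/
lemma cent_Z {g f : G8} (h1 : f.x = 0) (h2 : f.t = 0) (h3 : f.y = 0) (h4 : f.w = 0)
    (h5 : f.p = 0) (h6 : f.q = 0) (h7 : f.z ≠ 0) :
    g ∈ Subgroup.centralizer {f} ↔ g.x = 0 := by
  rw [mem_cent]
  constructor
  · intro h
    have := congrArg m h
    simp [h1, h2, h3, h4, h5, h6] at this
    have h8 : g.x * f.z = 0 := by linarith
    exact (mul_eq_zero.1 h8).resolve_right h7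
  · intro h
    ext <;> simp [h1, h2, h3, h4, h5, h6, h, add_comm]

/-- commuting with an element of the second term of the lower central series -/
lemma cent_comm {g f : G8} (h1 : f.x = 0) (h2 : f.t = 0) (h3 : f.y = 0) (h4 : f.p = 0) :
    g ∈ Subgroup.centralizer {f} ↔ g.t * f.q = 0 ∧
      g.x * f.z + g.t * f.w + g.t ^ 2 / 2 * f.q + g.p * f.q = 0 := by
  rw [mem_cent]
  constructor
  · intro h
    have e1 := congrArg m h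
    have e2 := congrArg w h
    simp [h1, h2, h3, h4] at e1 e2
    exact ⟨by linarith, by linarith⟩
  · rintro ⟨e1, e2⟩
    ext <;> simp [h1, h2, h3, h4, add_comm]
    · exact mul_eq_zero.1 e1
    · linarith

/-- elements commuting with two independent commutators -/
lemma cent_two {g f f' : G8} (h1 : f.x = 0) (h2 : f.t = 0) (h3 : f.y = 0) (h4 : f.p = 0)
    (k1 : f'.x = 0) (k2 : f'.t = 0) (k3 : f'.y = 0) (k4 : f'.p = 0) (hq : f.q ≠ 0)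
    (hd : f.q * f'.z - f.z * f'.q ≠ 0) :
    (g ∈ Subgroup.centralizer {f} ∧ g ∈ Subgroup.centralizer {f'}) ↔
      g.x = 0 ∧ g.t = 0 ∧ g.p = 0 := by
  rw [cent_comm h1 h2 h3 h4, cent_comm k1 k2 k3 k4]
  constructor
  · rintro ⟨⟨a1, a2⟩, ⟨b1, b2⟩⟩
    have ht : g.t = 0 := (mul_eq_zero.1 a1).resolve_right hq
    rw [ht] at a2 b2
    have hx : g.x = 0 := by
      have : g.x * (f.q * f'.z - f.z * f'.q) = 0 := by linear_combination f.q * b2 - f'.q * a2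
      exact (mul_eq_zero.1 this).resolve_right hd
    rw [hx] at a2
    have hp : g.p = 0 := by
      have : g.p * f.q = 0 := by linear_combination a2
      exact (mul_eq_zero.1 this).resolve_right hq
    exact ⟨hx, ht, hp⟩
  · rintro ⟨hx, ht, hp⟩
    simp [hx, ht, hp]

/-- coordinates of a commutator -/
lemma comm_coords (a b : G8) : (a * b * a⁻¹ * b⁻¹).x = 0 ∧ (a * b * a⁻¹ * b⁻¹).t = 0 ∧
    (a * b * a⁻¹ * b⁻¹).y = 0 ∧ (a * b * a⁻¹ * b⁻¹).p = 0 ∧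
    (a * b * a⁻¹ * b⁻¹).z = a.x * b.y - b.x * a.y ∧
    (a * b * a⁻¹ * b⁻¹).q = a.t * b.p - b.t * a.p := by
  refine ⟨?_, ?_, ?_, ?_, ?_, ?_⟩ <;> simp <;> ring

/-- commutator with an element of the second term of the lower central series -/
lemma comm_coords2 (a b : G8) (h1 : b.x = 0) (h2 : b.t = 0) (h3 : b.y = 0) (h4 : b.p = 0) :
    (a * b * a⁻¹ * b⁻¹).z = 0 ∧ (a * b * a⁻¹ * b⁻¹).q = 0 ∧
    (a * b * a⁻¹ * b⁻¹).w = a.t * b.q := by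
  refine ⟨?_, ?_, ?_⟩ <;> simp [h1, h2, h3, h4] <;> ring

/-- commutator with an element of the group `⟨z, w, m⟩` -/
lemma comm_ZW (a b : G8) (h1 : b.x = 0) (h2 : b.t = 0) (h3 : b.y = 0) (h4 : b.p = 0)
    (h5 : b.q = 0) : a * b * a⁻¹ * b⁻¹ = eM (a.x * b.z + a.t * b.w) := by
  ext <;> simp [h1, h2, h3, h4, h5, eM] <;> ring

/-- commutator of an element with `x = 0` with an element of the group `⟨y, z, w, m⟩` -/
lemma comm_TW (a b : G8) (h0 : a.x = 0) (h1 : b.x = 0) (h2 : b.t = 0) (h4 : b.p = 0)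
    (h5 : b.q = 0) : a * b * a⁻¹ * b⁻¹ = eM (a.t * b.w) := by
  ext <;> simp [h0, h1, h2, h4, h5, eM] <;> ring

/-- commutator of an element with `x = t = 0` with an element of the group `⟨y, z, q, w, m⟩` -/
lemma comm_PQ (a b : G8) (h0 : a.x = 0) (h0' : a.t = 0) (h1 : b.x = 0) (h2 : b.t = 0)
    (h4 : b.p = 0) : a * b * a⁻¹ * b⁻¹ = eM (a.p * b.q) := by
  ext <;> simp [h0, h0', h1, h2, h4, eM] <;> ring

/-- commutator of an element with `t = 0` with an element of the group `⟨y, z, q, w, m⟩` -/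
lemma comm_XY (a b : G8) (h0 : a.t = 0) (h1 : b.x = 0) (h2 : b.t = 0) (h4 : b.p = 0) :
    (a * b * a⁻¹ * b⁻¹).x = 0 ∧ (a * b * a⁻¹ * b⁻¹).t = 0 ∧ (a * b * a⁻¹ * b⁻¹).y = 0 ∧
    (a * b * a⁻¹ * b⁻¹).z = a.x * b.y ∧ (a * b * a⁻¹ * b⁻¹).p = 0 ∧
    (a * b * a⁻¹ * b⁻¹).q = 0 ∧ (a * b * a⁻¹ * b⁻¹).w = 0 := by
  refine ⟨?_, ?_, ?_, ?_, ?_, ?_, ?_⟩ <;> simp [h0, h1, h2, h4] <;> ring

lemma comm_mem {Λ : Subgroup G8} {a b : G8} (ha : a ∈ Λ) (hb : b ∈ Λ) :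
    a * b * a⁻¹ * b⁻¹ ∈ Λ :=
  Λ.mul_mem (Λ.mul_mem (Λ.mul_mem ha hb) (Λ.inv_mem ha)) (Λ.inv_mem hb)

/-- the special elements needed later exist in every lattice -/
theorem lattice_elements {Λ : Subgroup G8} [DiscreteTopology Λ] (hΛ : Cocpt Λ ⊤) :
    (∃ l ∈ Λ, l.x ≠ 0) ∧
    (∃ v ∈ Λ, v.x = 0 ∧ v.t = 0 ∧ v.y = 0 ∧ v.p = 0 ∧ v.q = 0 ∧ v.w = 0 ∧ v.z ≠ 0) ∧
    (∃ l ∈ Λ, l.x = 0 ∧ l.t ≠ 0) ∧
    (∃ v ∈ Λ, v.x = 0 ∧ v.t = 0 ∧ v.p = 0 ∧ v.q = 0 ∧ v.w ≠ 0) ∧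
    (∃ l ∈ Λ, l.x = 0 ∧ l.t = 0 ∧ l.p ≠ 0) ∧
    (∃ v ∈ Λ, v.x = 0 ∧ v.t = 0 ∧ v.p = 0 ∧ v.q ≠ 0) ∧
    (∃ s : ℝ, s ≠ 0 ∧ eM s ∈ Λ) := by
  -- an element with `t ≠ 0`
  obtain ⟨a, ha, -, hat⟩ := hΛ.exists_ne_zero (φ := t) continuous_t (by intros; simp)
    (g := mk 0 1 0 0 0 0 0 0) (Subgroup.mem_top _) (by simp)
  -- a first commutator
  obtain ⟨b, hb, -, hab⟩ := hΛ.exists_ne_zero (φ := fun g => a.t * g.p - g.t * a.p)
    (by fun_prop) (by intros; simp; ring)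
    (g := mk 0 0 0 0 1 0 0 0) (Subgroup.mem_top _) (by simpa using hat)
  have hc1 : a * b * a⁻¹ * b⁻¹ ∈ Λ := comm_mem ha hb
  obtain ⟨u1, u2, u3, u4, u5, u6⟩ := comm_coords a b
  generalize hc : a * b * a⁻¹ * b⁻¹ = c at hc1 u1 u2 u3 u4 u5 u6
  have hcq : c.q ≠ 0 := by rw [u6]; exact hab
  -- second commutator
  have hd1 : a * c * a⁻¹ * c⁻¹ ∈ Λ := comm_mem ha hc1
  obtain ⟨v1, v2, v3, v4, -, -⟩ := comm_coords a c
  obtain ⟨v5, v6, v7⟩ := comm_coords2 a c u1 u2 u3 u4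
  generalize hd : a * c * a⁻¹ * c⁻¹ = d at hd1 v1 v2 v3 v4 v5 v6 v7
  have hdw : d.w ≠ 0 := by rw [v7]; exact mul_ne_zero hat hcq
  -- third commutator
  have he : eM (a.x * d.z + a.t * d.w) ∈ Λ := by
    rw [← comm_ZW a d v1 v2 v3 v4 v6]
    exact comm_mem ha hd1
  have hes : a.x * d.z + a.t * d.w ≠ 0 := by
    rw [v5]
    simpa using mul_ne_zero hat hdw
  -- the centraliser of `d`
  have hH1 := hΛ.centralizer hd1
  obtain ⟨l1, hl1, hl1c, hl1x⟩ := hH1.exists_ne_zero (φ := x) continuous_x (by intros; simp)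
    (g := mk 1 0 0 0 0 0 0 0) ⟨Subgroup.mem_top _, (cent_W v1 v2 v3 v5 v4 v6 hdw).2 rfl⟩ (by simp)
  have hl1t : l1.t = 0 := (cent_W v1 v2 v3 v5 v4 v6 hdw).1 hl1c.2
  -- another commutator
  obtain ⟨g, hg, -, hgx⟩ := hΛ.exists_ne_zero (φ := x) continuous_x (by intros; simp)
    (g := mk 1 0 0 0 0 0 0 0) (Subgroup.mem_top _) (by simp)
  obtain ⟨h, hh, -, hgh⟩ := hΛ.exists_ne_zero
    (φ := fun r => c.q * (g.x * r.y - r.x * g.y) - c.z * (g.t * r.p - r.t * g.p))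
    (by fun_prop) (by intros; simp; ring)
    (g := mk 0 0 1 0 0 0 0 0) (Subgroup.mem_top _) (by simpa using ⟨hcq, hgx⟩)
  have hc1' : g * h * g⁻¹ * h⁻¹ ∈ Λ := comm_mem hg hh
  obtain ⟨w1, w2, w3, w4, w5, w6⟩ := comm_coords g h
  generalize hc' : g * h * g⁻¹ * h⁻¹ = c' at hc1' w1 w2 w3 w4 w5 w6
  have hdet : c.q * c'.z - c.z * c'.q ≠ 0 := by rw [w5, w6]; exact hgh
  have hH2 := (hΛ.centralizer hc1).centralizer hc1'
  obtain ⟨l2, hl2, hl2c, hl2y⟩ := hH2.exists_ne_zero (φ := y) continuous_y (by intros; simp)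
    (g := mk 0 0 1 0 0 0 0 0) ⟨⟨Subgroup.mem_top _,
      ((cent_two u1 u2 u3 u4 w1 w2 w3 w4 hcq hdet).2 ⟨rfl, rfl, rfl⟩).1⟩,
      ((cent_two u1 u2 u3 u4 w1 w2 w3 w4 hcq hdet).2 ⟨rfl, rfl, rfl⟩).2⟩ (by simp)
  obtain ⟨hl2x, hl2t, hl2p⟩ := (cent_two u1 u2 u3 u4 w1 w2 w3 w4 hcq hdet).1 ⟨hl2c.1.2, hl2c.2⟩
  -- an element of `⟨z, m⟩`
  have hv1 : l1 * l2 * l1⁻¹ * l2⁻¹ ∈ Λ := comm_mem hl1 hl2
  obtain ⟨z1, z2, z3, z4, z5, z6, z7⟩ := comm_XY l1 l2 hl1t hl2x hl2t hl2p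
  generalize hv : l1 * l2 * l1⁻¹ * l2⁻¹ = v at hv1 z1 z2 z3 z4 z5 z6 z7
  have hvz : v.z ≠ 0 := by rw [z4]; exact mul_ne_zero hl1x hl2y
  -- its centraliser
  have hH3 := hΛ.centralizer hv1
  obtain ⟨l3, hl3, hl3c, hl3t⟩ := hH3.exists_ne_zero (φ := t) continuous_t (by intros; simp)
    (g := mk 0 1 0 0 0 0 0 0) ⟨Subgroup.mem_top _, (cent_Z z1 z2 z3 z7 z5 z6 hvz).2 rfl⟩ (by simp)
  have hl3x : l3.x = 0 := (cent_Z z1 z2 z3 z7 z5 z6 hvz).1 hl3c.2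
  have hH4 := hH3.centralizer hd1
  obtain ⟨l4, hl4, hl4c, hl4p⟩ := hH4.exists_ne_zero (φ := p) continuous_p (by intros; simp)
    (g := mk 0 0 0 0 1 0 0 0) ⟨⟨Subgroup.mem_top _, (cent_Z z1 z2 z3 z7 z5 z6 hvz).2 rfl⟩,
      (cent_W v1 v2 v3 v5 v4 v6 hdw).2 rfl⟩ (by simp)
  have hl4x : l4.x = 0 := (cent_Z z1 z2 z3 z7 z5 z6 hvz).1 hl4c.1.2
  have hl4t : l4.t = 0 := (cent_W v1 v2 v3 v5 v4 v6 hdw).1 hl4c.2
  exact ⟨⟨g, hg, hgx⟩, ⟨v, hv1, z1, z2, z3, z5, z6, z7, hvz⟩, ⟨l3, hl3, hl3x, hl3t⟩,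
    ⟨d, hd1, v1, v2, v4, v6, hdw⟩, ⟨l4, hl4, hl4x, hl4t, hl4p⟩, ⟨c, hc1, u1, u2, u4, hcq⟩,
    ⟨_, hes, he⟩⟩

end G8

end Pool.Agent.Lib.MP_c749e3_al
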