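import Pool.Agent.Lib.MP_c749e3_al.UpperG8
import Pool.Agent.Lib.MP_c749e3_al.Gen

/-!
# `σ^u_G ⋠ σ_G` for `G = G8`
-/

open MeasureTheory Pointwise Set Topology
open scoped ENNReal NNReal Manifold ContDiff

noncomputable section

namespace Pool.Agent.Lib.MP_c749e3_al

/-- the uniform systole bounds the word length of conjugates -/
lemma lt_wordLength_of_usys {G : Type*} [Group G] {S : Set G} {Λ : Subgroup G} {r a : ℝ}
    (h : ENNReal.ofReal r ≤ usys S (Λ : Set G)) (ha : a < r) (g v : G) (hv : v ∈ Λ)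
    (hv1 : v ≠ 1) : a < wordLength S (g * v * g⁻¹) := by
  have h1 : usys S (Λ : Set G) ≤ (wordLength S (g * v * g⁻¹) : ℝ≥0∞) := by
    refine (iInf_le _ g).trans (iInf₂_le (g * v * g⁻¹) ⟨⟨v, hv, rfl⟩, ?_⟩)
    intro hc
    apply hv1
    have : g * v * g⁻¹ = 1 := hc
    simpa using this
  have h2 : ENNReal.ofReal r ≤ ENNReal.ofReal (wordLength S (g * v * g⁻¹) : ℝ) := by
    rw [ENNReal.ofReal_natCast]
    exact h.trans h1
  have h3 : r ≤ wordLength S (g * v * g⁻¹) := by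
    rcases le_or_gt r 0 with hr | hr
    · exact hr.trans (Nat.cast_nonneg _)
    · exact (ENNReal.ofReal_le_ofReal_iff (Nat.cast_nonneg _)).1 h2
  exact ha.trans_le h3

theorem G8.not_precedes {S : Set G8} (hSc : IsCompact S) (hS : Generates S) (μ : Measure G8)
    [μ.IsHaarMeasure] : ¬ Precedes (sigmaU S μ) (sigma S μ) := by
  rintro ⟨C, C', C'', hC, hC', hC'', h⟩
  obtain ⟨c, hc, hμ⟩ := G8.exists_eq_smul_leb μ
  obtain ⟨A, hA0, hA⟩ := G8.lower_bound hSc hS
  obtain ⟨B, hB1, hB⟩ := G8.upper_bound hSc hS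
  have hB0 : 0 < B := by linarith
  have hc' : (0 : ℝ) < c := by exact_mod_cast hc
  obtain ⟨D, hD⟩ := exists_nat_gt (A * B * C')
  have hD0' : (0 : ℝ) < D := lt_of_le_of_lt (by positivity) hD
  have hD0 : 0 < D := by exact_mod_cast hD0'
  -- the inequality for all `k`
  have key : ∀ k : ℕ, 0 < k → (c : ℝ) * ((216 * D ^ 2) ^ 17 / 2) * k ≤
      4 * C * c * (6 * D) ^ 50 + C'' := by
    intro k hk
    have hk' : (1 : ℝ) ≤ k := by exact_mod_cast hk
    have hk0 : (0 : ℝ) < k := by linarith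
    set N : ℝ := 6 * ((D * k : ℕ) : ℝ) with hN
    have hN' : N = 6 * D * k := by rw [hN]; push_cast; ring
    have hN0 : 0 < N := by rw [hN']; positivity
    set r : ℝ := N ^ 3 / (B * C') with hr
    have hr0 : 0 < r := by positivity
    have hup := hB μ c hμ (D * k) (Nat.mul_pos hD0 hk)
    rw [← hN] at hup
    have hlow : (c : ℝ≥0∞) * ENNReal.ofReal (((216 * D ^ 2 * k ^ 3 : ℕ) : ℝ) ^ 17 / 2) ≤
        sigmaU S μ r := by
      refine le_iInf fun Λ => le_iInf fun hΛ => le_iInf fun hsys => ?_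
      refine hA Λ hΛ (216 * D ^ 2 * k ^ 3) (by positivity) ?_ μ c hμ
      intro g v hv hv1
      have hlt : ((A * (216 * D ^ 2 * k ^ 3) : ℕ) : ℝ) < r := by
        rw [hr, lt_div_iff₀ (by positivity), hN']
        push_cast
        have : (A : ℝ) * B * C' * (216 * (D : ℝ) ^ 2 * (k : ℝ) ^ 3) <
            D * (216 * (D : ℝ) ^ 2 * (k : ℝ) ^ 3) := by
          gcongr
        calc (A : ℝ) * (216 * (D : ℝ) ^ 2 * (k : ℝ) ^ 3) * (B * C')
            = (A : ℝ) * B * C' * (216 * (D : ℝ) ^ 2 * (k : ℝ) ^ 3) := by ring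
          _ < D * (216 * (D : ℝ) ^ 2 * (k : ℝ) ^ 3) := this
          _ = (6 * (D : ℝ) * k) ^ 3 := by ring
      exact_mod_cast lt_wordLength_of_usys hsys hlt g v hv hv1
    have h1 := h r hr0
    have e : C' * r = N ^ 3 / B := by
      rw [hr]
      field_simp
    rw [e] at h1
    have h2 : (c : ℝ≥0∞) * ENNReal.ofReal (((216 * D ^ 2 * k ^ 3 : ℕ) : ℝ) ^ 17 / 2) ≤
        ENNReal.ofReal C * (c * ENNReal.ofReal (4 * N ^ 50)) + ENNReal.ofReal C'' :=
      hlow.trans (h1.trans (by gcongr))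
    have hcE : (c : ℝ≥0∞) = ENNReal.ofReal (c : ℝ) := by simp
    rw [hcE, ← ENNReal.ofReal_mul hc'.le, ← ENNReal.ofReal_mul hc'.le, ← ENNReal.ofReal_mul hC.le,
      ← ENNReal.ofReal_add (by positivity) hC''.le,
      ENNReal.ofReal_le_ofReal_iff (by positivity), hN'] at h2
    push_cast at h2
    have hk50 : (1 : ℝ) ≤ (k : ℝ) ^ 50 := one_le_pow₀ hk'
    have h3 : (c : ℝ) * ((216 * D ^ 2) ^ 17 / 2) * k * k ^ 50 ≤
        (4 * C * c * (6 * D) ^ 50 + C'') * k ^ 50 := by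
      calc (c : ℝ) * ((216 * D ^ 2) ^ 17 / 2) * k * k ^ 50
          = c * ((216 * D ^ 2 * k ^ 3) ^ 17 / 2) := by ring
        _ ≤ C * (c * (4 * (6 * D * k) ^ 50)) + C'' := h2
        _ = 4 * C * c * (6 * D) ^ 50 * k ^ 50 + C'' * 1 := by ring
        _ ≤ 4 * C * c * (6 * D) ^ 50 * k ^ 50 + C'' * k ^ 50 := by gcongr
        _ = (4 * C * c * (6 * D) ^ 50 + C'') * k ^ 50 := by ring
    exact le_of_mul_le_mul_right h3 (by positivity)
  set K : ℝ := (c : ℝ) * ((216 * D ^ 2) ^ 17 / 2) with hK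
  have hK0 : 0 < K := by positivity
  obtain ⟨k, hk⟩ := exists_nat_gt ((4 * C * c * (6 * D) ^ 50 + C'') / K)
  have hk0' : (0 : ℝ) < k := lt_of_le_of_lt (by positivity) hk
  have hk0 : 0 < k := by exact_mod_cast hk0'
  rw [div_lt_iff₀ hK0] at hk
  have := key k hk0
  linarith

/-- the main theorem -/
theorem main : ∃ (G : Type) (_ : Group G) (_ : TopologicalSpace G)
    (_ : ChartedSpace (Fin 8 → ℝ) G) (_ : LieGroup (modelWithCornersSelf ℝ (Fin 8 → ℝ)) ∞ G)
    (_ : T2Space G) (_ : SecondCountableTopology G) (_ : SimplyConnectedSpace G)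
    (_ : MeasurableSpace G) (_ : BorelSpace G),
    Group.IsNilpotent G ∧ (∃ Γ : Subgroup G, IsLattice Γ) ∧
    (∃ S : Set G, IsCompact S ∧ Generates S) ∧
    ∀ S : Set G, IsCompact S → Generates S → ∀ μ : Measure G, μ.IsHaarMeasure →
      ¬ Precedes (sigmaU S μ) (sigma S μ) := by
  refine ⟨G8, inferInstance, inferInstance, inferInstance, inferInstance, inferInstance,
    inferInstance, inferInstance, inferInstance, inferInstance, G8.isNilpotent,
    ⟨G8.lat 1, G8.isLattice_lat one_pos⟩, ⟨G8.S0, G8.isCompact_S0, G8.generates_S0⟩, ?_⟩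
  intro S hSc hS μ hμ
  exact G8.not_precedes hSc hS μ

end Pool.Agent.Lib.MP_c749e3_al
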