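import Pool.Agent.Lib.MP_c749e3_al.LowerG8

/-!
# The upper bound: an explicit family of lattices of `G8`
-/

open MeasureTheory Pointwise Set Topology
open scoped ENNReal NNReal

noncomputable section

namespace Pool.Agent.Lib.MP_c749e3_al

namespace G8

/-- the elements of the lattice, for `N = 6 * n` -/
def latElt (n : ℕ) (i j b c k l q d : ℤ) : G8 :=
  mk (2 * (6 * n) ^ 5 * i) ((6 * n) ^ 3 * j) ((6 * n) ^ 2 * b) ((6 * n) ^ 6 * b + (6 * n) ^ 7 * c)
    (2 * (6 * n) ^ 5 * k) ((6 * n) ^ 7 * l) ((6 * n) ^ 9 * q)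
    ((6 * n) ^ 11 * c + (6 * n) ^ 12 * d)

/-- the lattice `Λ_N`, `N = 6 * n` -/
def lat (n : ℕ) : Subgroup G8 where
  carrier := {g | ∃ i j b c k l q d : ℤ, g = latElt n i j b c k l q d}
  mul_mem' := by
    rintro _ _ ⟨i, j, b, c, k, l, q, d, rfl⟩ ⟨i', j', b', c', k', l', q', d', rfl⟩
    refine ⟨i + i', j + j', b + b', c + c' + 2 * i * b', k + k', l + l' + 2 * (6 * n) * j * k',
      q + q' + (6 * n) * j * l' + (6 * n) ^ 2 * j ^ 2 * k',
      d + d' + 2 * i * c' + 2 * i ^ 2 * b' + j * q' + 3 * n * j ^ 2 * l'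
        + 12 * n ^ 2 * j ^ 3 * k' + k * l' - l * k' + 2 * (6 * n) * k * j * k', ?_⟩
    ext <;> simp [latElt] <;> ring
  one_mem' := by
    refine ⟨0, 0, 0, 0, 0, 0, 0, 0, ?_⟩
    ext <;> simp [latElt]
  inv_mem' := by
    rintro _ ⟨i, j, b, c, k, l, q, d, rfl⟩
    refine ⟨-i, -j, -b, -c + 2 * i * b, -k, -l + 2 * (6 * n) * j * k,
      -q + (6 * n) * j * l - (6 * n) ^ 2 * j ^ 2 * k,
      -d + 2 * i * c - 2 * i ^ 2 * b + j * q - 3 * n * j ^ 2 * l + 12 * n ^ 2 * j ^ 3 * k, ?_⟩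
    ext <;> simp [latElt] <;> ring

lemma mem_lat {n : ℕ} {g : G8} : g ∈ lat n ↔ ∃ i j b c k l q d : ℤ,
    g = latElt n i j b c k l q d := Iff.rfl

/-- a nonzero integer multiple of `L > 0` has absolute value at least `L` -/
lemma le_abs_of_ne {L : ℝ} (hL : 0 < L) {i : ℤ} (h : L * i ≠ 0) : L ≤ |L * i| := by
  have hi : i ≠ 0 := by
    rintro rfl
    simp at h
  rw [abs_mul, abs_of_pos hL]
  have : (1 : ℝ) ≤ |(i : ℝ)| := by
    rw [← Int.cast_abs]
    exact_mod_cast Int.one_le_abs hi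
  nlinarith

lemma eq_zero_of_lt {L : ℝ} (hL : 0 < L) {i : ℤ} (h : |L * i| < L) : i = 0 := by
  by_contra hne
  have : L * (i : ℝ) ≠ 0 := mul_ne_zero hL.ne' (by exact_mod_cast hne)
  exact absurd (le_abs_of_ne hL this) (not_le.2 h)

lemma abs_lt_pow_of {N : ℝ} (hN : 1 ≤ N) {u : ℝ} {a b : ℕ} (hab : a ≤ b) (h : |u| < N ^ a) :
    |u| < N ^ b := h.trans_le (pow_le_pow_right₀ hN hab)

/-- short elements of the lattice are trivial -/
lemma lat_small {n : ℕ} (hn : 0 < n) {g : G8} (hg : g ∈ lat n)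
    (hx : |g.x| < (6 * n) ^ 3) (ht : |g.t| < (6 * n) ^ 3) (hy : |g.y| < (6 * n) ^ 3)
    (hz : |g.z| < (6 * n) ^ 6) (hp : |g.p| < (6 * n) ^ 3) (hq : |g.q| < (6 * n) ^ 6)
    (hw : |g.w| < (6 * n) ^ 9) (hm : |g.m| < (6 * n) ^ 12) : g = 1 := by
  obtain ⟨i, j, b, c, k, l, q, d, rfl⟩ := hg
  have hn' : (1 : ℝ) ≤ n := by exact_mod_cast hn
  set N : ℝ := 6 * n with hN
  have hN1 : 1 ≤ N := by linarith
  have hN0 : 0 < N := by linarith
  simp only [latElt, x_mk, t_mk, y_mk, z_mk, p_mk, q_mk, w_mk, m_mk, ← hN] at hx ht hy hz hp hq hw hm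
  have h5 : (0 : ℝ) < 2 * N ^ 5 := by positivity
  have h35 : N ^ 3 ≤ 2 * N ^ 5 := by
    have := pow_le_pow_right₀ hN1 (show 3 ≤ 5 by norm_num)
    have := pow_pos hN0 5
    linarith
  have hi : i = 0 := eq_zero_of_lt h5 (hx.trans_le h35)
  have hj : j = 0 := eq_zero_of_lt (by positivity) ht
  have hk : k = 0 := eq_zero_of_lt h5 (hp.trans_le h35)
  have hl : l = 0 := eq_zero_of_lt (L := N ^ 7) (by positivity)
    (hq.trans_le (pow_le_pow_right₀ hN1 (by norm_num)))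
  have hq0 : q = 0 := eq_zero_of_lt (by positivity) hw
  have hbc : b + 6 * n * c = 0 := by
    have e : N ^ 6 * (b : ℝ) + N ^ 7 * c = N ^ 6 * ((b + 6 * n * c : ℤ) : ℝ) := by
      push_cast
      rw [← hN]
      ring
    rw [e] at hz
    exact eq_zero_of_lt (by positivity) hz
  have hbN : |(b : ℝ)| < N := by
    rw [abs_mul, abs_of_pos (by positivity : (0 : ℝ) < N ^ 2)] at hy
    have : N ^ 2 * |(b : ℝ)| < N ^ 2 * N := by
      calc N ^ 2 * |(b : ℝ)| < N ^ 3 := hy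
        _ = N ^ 2 * N := by ring
    exact lt_of_mul_lt_mul_left this (by positivity)
  have hc : c = 0 := by
    have e : (b : ℝ) = N * ((-c : ℤ) : ℝ) := by
      have : (b : ℝ) + 6 * n * c = 0 := by exact_mod_cast hbc
      push_cast
      rw [hN]
      linarith
    rw [e] at hbN
    have := eq_zero_of_lt hN0 hbN
    omega
  have hb : b = 0 := by
    rw [hc] at hbc
    simpa using hbc
  have hd : d = 0 := by
    rw [hc] at hm
    simp only [Int.cast_zero, mul_zero, zero_add] at hm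
    exact eq_zero_of_lt (by positivity) hm
  rw [hi, hj, hb, hc, hk, hl, hq0, hd]
  ext <;> simp [latElt]

/-- the fundamental domain of the lattice -/
def latBox (n : ℕ) : Set G8 :=
  box (2 * (6 * n) ^ 5) ((6 * n) ^ 3) ((6 * n) ^ 2) ((6 * n) ^ 7) (2 * (6 * n) ^ 5) ((6 * n) ^ 7)
    ((6 * n) ^ 9) ((6 * n) ^ 12)

lemma lat_packing {n : ℕ} (hn : 0 < n) {l g : G8} (hl : l ∈ lat n) (hg : g ∈ latBox n)
    (hlg : l * g ∈ latBox n) : l = 1 := by
  have hn' : (1 : ℝ) ≤ n := by exact_mod_cast hn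
  have hN0 : (0 : ℝ) < 6 * n := by linarith
  have h2 : ((6 * n : ℝ)) ^ 2 ≠ 0 := by positivity
  refine packing (Λ := lat n) ?_ ?_ ?_ ?_ ?_ ?_ ?_ ?_ hl hg hlg
  · rintro _ ⟨i, j, b, c, k, l, q, d, rfl⟩ - h
    exact le_abs_of_ne (by positivity) h
  · rintro _ ⟨i, j, b, c, k, l, q, d, rfl⟩ ⟨-, -, hy, -, -, -⟩ h
    have hb : (b : ℝ) = 0 := (mul_eq_zero.1 hy).resolve_left h2
    simp only [latElt, z_mk, hb, mul_zero, zero_add] at h ⊢
    exact le_abs_of_ne (by positivity) h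
  · rintro _ ⟨i, j, b, c, k, l, q, d, rfl⟩ - h
    exact le_abs_of_ne (by positivity) h
  · rintro _ ⟨i, j, b, c, k, l, q, d, rfl⟩ - h
    exact le_abs_of_ne (by positivity) h
  · rintro _ ⟨i, j, b, c, k, l, q, d, rfl⟩ - h
    exact le_abs_of_ne (by positivity) h
  · rintro _ ⟨i, j, b, c, k, l, q, d, rfl⟩ - h
    exact le_abs_of_ne (by positivity) h
  · rintro _ ⟨i, j, b, c, k, l, q, d, rfl⟩ - - - - - h
    exact le_abs_of_ne (by positivity) h
  · rintro r hr ⟨i, j, b, c, k, l, q, d, h⟩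
    have e1 := congrArg y h
    have e2 := congrArg z h
    have e3 := congrArg m h
    simp only [eM, latElt, y_mk, z_mk, m_mk] at e1 e2 e3
    have hb : (b : ℝ) = 0 := (mul_eq_zero.1 e1.symm).resolve_left h2
    rw [hb, mul_zero, zero_add] at e2
    have hc : (c : ℝ) = 0 := (mul_eq_zero.1 e2.symm).resolve_left (by positivity)
    rw [hc, mul_zero, zero_add] at e3
    rw [e3] at hr ⊢
    exact le_abs_of_ne (by positivity) hr

lemma exists_int_Ico {L : ℝ} (hL : 0 < L) (a : ℝ) : ∃ i : ℤ, L * i + a ∈ Ico 0 L := by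
  refine ⟨-⌊a / L⌋, ?_, ?_⟩
  · have := Int.floor_le (a / L)
    rw [le_div_iff₀ hL] at this
    push_cast
    linarith
  · have := Int.lt_floor_add_one (a / L)
    rw [div_lt_iff₀ hL] at this
    push_cast
    linarith

lemma lat_cover {n : ℕ} (hn : 0 < n) (g : G8) : ∃ l ∈ lat n, l * g ∈ latBox n := by
  have hn' : (1 : ℝ) ≤ n := by exact_mod_cast hn
  have hN0 : (0 : ℝ) < 6 * n := by linarith
  obtain ⟨i, hi⟩ := exists_int_Ico (L := 2 * (6 * n) ^ 5) (by positivity) g.x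
  obtain ⟨j, hj⟩ := exists_int_Ico (L := (6 * n) ^ 3) (by positivity) g.t
  obtain ⟨b, hb⟩ := exists_int_Ico (L := (6 * n) ^ 2) (by positivity) g.y
  obtain ⟨k, hk⟩ := exists_int_Ico (L := 2 * (6 * n) ^ 5) (by positivity) g.p
  obtain ⟨c, hc⟩ := exists_int_Ico (L := (6 * n) ^ 7) (by positivity)
    ((6 * n) ^ 6 * b + g.z + (2 * (6 * n) ^ 5 * i) * g.y)
  obtain ⟨l, hl⟩ := exists_int_Ico (L := (6 * n) ^ 7) (by positivity)
    (g.q + ((6 * n) ^ 3 * j) * g.p)
  obtain ⟨q, hq⟩ := exists_int_Ico (L := (6 * n) ^ 9) (by positivity)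
    (g.w + ((6 * n) ^ 3 * j) * g.q + ((6 * n) ^ 3 * j) ^ 2 / 2 * g.p)
  obtain ⟨d, hd⟩ := exists_int_Ico (L := (6 * n) ^ 12) (by positivity)
    ((latElt n i j b c k l q 0 * g).m)
  refine ⟨latElt n i j b c k l q d, ⟨i, j, b, c, k, l, q, d, rfl⟩, hi, hj, hb, ?_, hk, ?_, ?_, ?_⟩
  · convert hc using 1
    simp [latElt]
    ring
  · convert hl using 1
    simp [latElt]
    ring
  · convert hq using 1
    simp [latElt]
    ring
  · convert hd using 1
    simp [latElt]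
    ring

/-- the closed box containing the fundamental domain is compact -/
lemma exists_compact_latBox (n : ℕ) : ∃ K : Set G8, IsCompact K ∧ latBox n ⊆ K := by
  obtain ⟨a, b, hab⟩ : ∃ a b : Fin 8 → ℝ, latBox n ⊆ (Set.pi univ fun i => Icc (a i) (b i) :
      Set (Fin 8 → ℝ)) := by
    refine ⟨fun _ => 0, ![2 * (6 * n) ^ 5, (6 * n) ^ 3, (6 * n) ^ 2, (6 * n) ^ 7, 2 * (6 * n) ^ 5,
      (6 * n) ^ 7, (6 * n) ^ 9, (6 * n) ^ 12], ?_⟩
    rw [latBox, box_eq]
    exact Set.pi_mono fun i _ => Ico_subset_Icc_self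
  exact ⟨_, isCompact_univ_pi (X := fun _ : Fin 8 => ℝ) fun i => isCompact_Icc, hab⟩

theorem isLattice_lat {n : ℕ} (hn : 0 < n) : IsLattice (lat n) := by
  have hn' : (1 : ℝ) ≤ n := by exact_mod_cast hn
  have hN1 : (1 : ℝ) ≤ 6 * n := by linarith
  constructor
  · -- discreteness
    have hU : IsOpen {g : G8 | |g.x| < 1 ∧ |g.t| < 1 ∧ |g.y| < 1 ∧ |g.z| < 1 ∧ |g.p| < 1 ∧
        |g.q| < 1 ∧ |g.w| < 1 ∧ |g.m| < 1} := by
      have ho : ∀ {f : G8 → ℝ}, Continuous f → IsOpen {g | |f g| < 1} := fun hf =>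
        isOpen_lt hf.abs continuous_const
      exact (ho continuous_x).inter ((ho continuous_t).inter ((ho continuous_y).inter
        ((ho continuous_z).inter ((ho continuous_p).inter ((ho continuous_q).inter
        ((ho continuous_w).inter (ho continuous_m)))))))
    refine discreteTopology_of_isOpen_singleton_one ?_
    refine isOpen_induced_iff.2 ⟨_, hU, ?_⟩
    ext l
    simp only [mem_preimage, mem_setOf_eq, mem_singleton_iff]
    constructor
    · rintro ⟨h1, h2, h3, h4, h5, h6, h7, h8⟩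
      have hpow : ∀ k : ℕ, (1 : ℝ) ≤ (6 * n) ^ k := fun k => one_le_pow₀ hN1
      exact Subtype.ext (lat_small hn l.2 (h1.trans_le (hpow 3)) (h2.trans_le (hpow 3))
        (h3.trans_le (hpow 3)) (h4.trans_le (hpow 6)) (h5.trans_le (hpow 3))
        (h6.trans_le (hpow 6)) (h7.trans_le (hpow 9)) (h8.trans_le (hpow 12)))
    · rintro rfl
      simp
  · -- cocompactness
    obtain ⟨K, hK, hKbox⟩ := exists_compact_latBox n
    have himg : (QuotientGroup.mk '' (K⁻¹) : Set (G8 ⧸ lat n)) = univ := by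
      refine eq_univ_of_forall fun a => ?_
      obtain ⟨g, rfl⟩ := QuotientGroup.mk_surjective a
      obtain ⟨l, hl, hlg⟩ := lat_cover hn g⁻¹
      refine ⟨(l * g⁻¹)⁻¹, ?_, ?_⟩
      · rw [Set.mem_inv, inv_inv]
        exact hKbox hlg
      · rw [QuotientGroup.eq]
        have : ((l * g⁻¹)⁻¹)⁻¹ * g = l := by group
        rw [this]
        exact hl
    refine ⟨?_⟩
    rw [← himg]
    exact hK.inv.image QuotientGroup.continuous_mk

lemma latBox_isFundamentalDomain {n : ℕ} (hn : 0 < n) (μ : Measure G8) :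
    IsFundamentalDomain (lat n) (latBox n) μ := by
  refine IsFundamentalDomain.mk' (measurableSet_box _ _ _ _ _ _ _ _).nullMeasurableSet
    fun g => ?_
  obtain ⟨l, hl, hlg⟩ := lat_cover hn g
  refine ⟨⟨l, hl⟩, hlg, ?_⟩
  rintro ⟨l', hl'⟩ hl'g
  have hl'g' : l' * g ∈ latBox n := hl'g
  have h : (l' * l⁻¹) * (l * g) ∈ latBox n := by
    have : (l' * l⁻¹) * (l * g) = l' * g := by group
    rwa [this]
  have h1 := lat_packing hn ((lat n).mul_mem hl' ((lat n).inv_mem hl)) hlg h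
  exact Subtype.ext (mul_inv_eq_one.1 h1)

variable {S : Set G8}

lemma covolume_lat {n : ℕ} (hn : 0 < n) (μ : Measure G8) [μ.IsHaarMeasure] {c : ℝ≥0}
    (hμ : μ = c • leb) : covolume (lat n) G8 μ = c * ENNReal.ofReal (4 * (6 * n) ^ 50) := by
  have hlat := isLattice_lat hn
  have := hlat.1
  have : Countable (lat n) := TopologicalSpace.separableSpace_iff_countable.1 inferInstance
  rw [(latBox_isFundamentalDomain hn μ).covolume_eq_volume, hμ, Measure.smul_apply, latBox,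
    leb_box (by positivity) (by positivity) (by positivity) (by positivity) (by positivity)
      (by positivity) (by positivity), ENNReal.smul_def, smul_eq_mul]
  congr 2
  ring

/-- the upper bound for the systolic growth -/
theorem upper_bound (hSc : IsCompact S) (hS : Generates S) :
    ∃ B : ℝ, 1 ≤ B ∧ ∀ (μ : Measure G8) [μ.IsHaarMeasure] (c : ℝ≥0), μ = c • leb →
      ∀ n : ℕ, 0 < n → sigma S μ ((6 * n) ^ 3 / B) ≤ c * ENNReal.ofReal (4 * (6 * n) ^ 50) := by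
  obtain ⟨B, hB1, hB⟩ := exists_coord_bound hSc
  refine ⟨B, hB1, fun μ _ c hμ n hn => ?_⟩
  rw [← covolume_lat hn μ hμ]
  refine iInf_le_of_le (lat n) (iInf_le_of_le (isLattice_lat hn) (iInf_le _ ?_))
  refine le_iInf₂ fun v hv => ?_
  obtain ⟨hvΛ, hv1⟩ := hv
  have hv1' : v ≠ 1 := hv1
  by_contra hcon
  push Not at hcon
  apply hv1'
  have hB0 : 0 < B := by linarith
  set k : ℕ := wordLength S v with hk
  have hlt : (k : ℝ) < (6 * n) ^ 3 / B := by
    have h1 : ENNReal.ofReal (k : ℝ) < ENNReal.ofReal ((6 * n) ^ 3 / B) := by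
      rwa [ENNReal.ofReal_natCast]
    exact (ENNReal.ofReal_lt_ofReal_iff_of_nonneg (Nat.cast_nonneg k)).1 h1
  have hlt' : B * k < (6 * n) ^ 3 := by
    rw [lt_div_iff₀ hB0] at hlt
    linarith
  obtain ⟨h1, h2, h3, h4, h5, h6, h7, h8⟩ := hB k v (mem_pow_wordLength hS v)
  have hk0 : (0 : ℝ) ≤ k := Nat.cast_nonneg k
  have hBk : 0 ≤ B * k := by positivity
  have e2 : B * k ^ 2 < (6 * n) ^ 6 := by
    calc B * (k : ℝ) ^ 2 ≤ B ^ 2 * (k : ℝ) ^ 2 := by
          gcongr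
          exact le_self_pow₀ hB1 (by norm_num)
      _ = (B * k) ^ 2 := by ring
      _ < ((6 * n) ^ 3) ^ 2 := pow_lt_pow_left₀ hlt' hBk (by norm_num)
      _ = (6 * n) ^ 6 := by ring
  have e3 : B * k ^ 3 < (6 * n) ^ 9 := by
    calc B * (k : ℝ) ^ 3 ≤ B ^ 3 * (k : ℝ) ^ 3 := by
          gcongr
          exact le_self_pow₀ hB1 (by norm_num)
      _ = (B * k) ^ 3 := by ring
      _ < ((6 * n) ^ 3) ^ 3 := pow_lt_pow_left₀ hlt' hBk (by norm_num)
      _ = (6 * n) ^ 9 := by ring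
  have e4 : B * k ^ 4 < (6 * n) ^ 12 := by
    calc B * (k : ℝ) ^ 4 ≤ B ^ 4 * (k : ℝ) ^ 4 := by
          gcongr
          exact le_self_pow₀ hB1 (by norm_num)
      _ = (B * k) ^ 4 := by ring
      _ < ((6 * n) ^ 3) ^ 4 := pow_lt_pow_left₀ hlt' hBk (by norm_num)
      _ = (6 * n) ^ 12 := by ring
  exact lat_small hn hvΛ (h1.trans_lt hlt') (h2.trans_lt hlt') (h3.trans_lt hlt')
    (h5.trans_lt e2) (h4.trans_lt hlt') (h6.trans_lt e2) (h7.trans_lt e3) (h8.trans_lt e4)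

end G8

end Pool.Agent.Lib.MP_c749e3_al
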